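import Mathlib
import Pool.Agent.H826R2.Wein.Link

/-! A linking lemma in which the pushing homotopies may depend on a compact set. -/

open scoped Topology unitInterval
open Set Filter

set_option linter.unusedSectionVars false

namespace Pool.Agent.Y520.Link

open Pool.Agent.H826R2.Wein.Link

variable {P : Type*} [TopologicalSpace P] {N : ℕ} {Φ : (Fin N → ℝ) × P → ℝ}

variable (Φ) in
/-- pushing maps attached to every parameter and every compact set -/
def PushableK : Prop := ∀ (p : Fin N → ℝ) (c c' : ℝ), c < c' → ∀ K : Set P, IsCompact K →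
  ∃ h : P × ℝ → P, Continuous h ∧ (∀ y, h (y, 0) = y) ∧
  (∀ y, c' < Φ (p, y) → ∀ r, 0 ≤ r → c < Φ (p, h (y, r))) ∧
  ∃ T : ℝ, 0 ≤ T ∧ ∀ y ∈ K, c < Φ (p, h (y, T))

lemma Sn_zero (hT : PushableK Φ) : Sn Φ 0 := by
  intro Z _ _ _ π hπ g hg Z₁ hZ₁ a ha c c' hc
  obtain ⟨h, hh, hh0, h1, T, hT0, hT⟩ := hT a c c' hc (range g) (isCompact_range hg)
  refine ⟨fun q => h (g q.1, q.2 * T), hh.comp (by fun_prop), fun z => by simp [hh0], ?_⟩
  intro z hz
  have hza : π z = a := funext fun j => ha z hz j (Nat.zero_le _)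
  refine ⟨?_, fun h3 s hs => ?_⟩
  · rw [hza]
    simp only [one_mul]
    exact hT _ ⟨z, rfl⟩
  · rw [hza] at h3 ⊢
    simp only [zero_mul, hh0] at h3
    exact h1 _ h3 _ (mul_nonneg hs.1 hT0)

lemma Sn_all (hΦ : Continuous Φ) (hT : PushableK Φ) : ∀ n ≤ N, Sn Φ n := by
  intro n hn
  induction n with
  | zero => exact Sn_zero hT
  | succ n ih => exact step hΦ (Nat.lt_of_succ_le hn) (ih (by omega))

/-- **Linking.** -/
theorem linking (hΦ : Continuous Φ) (hT : PushableK Φ) (x : P)
    (hx : Tendsto (fun p => Φ (p, x)) (cocompact (Fin N → ℝ)) atTop)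
    {L : P → Fin N → ℝ} (hL : Continuous L) {c : ℝ} (hLc : ∀ y, Φ (L y, y) ≤ c) : False := by
  obtain ⟨ρ, hρ⟩ : ∃ ρ : ℝ, ∀ p : Fin N → ℝ, ρ < ‖p‖ → c + 2 < Φ (p, x) := by
    have h1 := hx.eventually (eventually_gt_atTop (c + 2))
    rw [← Metric.cobounded_eq_cocompact] at h1
    obtain ⟨ρ, -, hρ⟩ := (hasBasis_cobounded_norm (E := Fin N → ℝ)).eventually_iff.1 h1
    exact ⟨ρ, fun p hp => hρ hp.le⟩
  obtain ⟨G, hG, hG0, hGg⟩ := Sn_all hΦ hT N le_rfl (Metric.closedBall (0 : Fin N → ℝ) (max ρ 0))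
    (fun z => z.1) continuous_subtype_val (fun _ => x) continuous_const univ isClosed_univ 0
    (fun z _ j hj => absurd j.2 (not_lt.2 hj)) c (c + 1) (by linarith)
  -- retraction to the ball
  have hrmem : ∀ p : Fin N → ℝ, (fun i => max (-(max ρ 0)) (min (max ρ 0) (p i))) ∈
      Metric.closedBall (0 : Fin N → ℝ) (max ρ 0) := by
    intro p
    rw [mem_closedBall_zero_iff, pi_norm_le_iff_of_nonneg (le_max_right _ _)]
    intro i
    have h0 : 0 ≤ max ρ 0 := le_max_right _ _
    rw [Real.norm_eq_abs, abs_le]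
    exact ⟨le_max_left _ _, max_le (by linarith) (min_le_left _ _)⟩
  set r : (Fin N → ℝ) → Metric.closedBall (0 : Fin N → ℝ) (max ρ 0) := fun p =>
    ⟨fun i => max (-(max ρ 0)) (min (max ρ 0) (p i)), hrmem p⟩ with hr
  have hrc : Continuous r := by
    refine Continuous.subtype_mk ?_ _
    fun_prop
  have hrid : ∀ p : Fin N → ℝ, ‖p‖ ≤ max ρ 0 → (r p : Fin N → ℝ) = p := by
    intro p hp
    ext i
    have h1 := abs_le.1 ((norm_le_pi_norm p i).trans hp)
    simp only [hr]
    rw [min_eq_right h1.2, max_eq_right h1.1]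
  have hcl : ∀ r : ℝ, max 0 (min 1 r) ∈ Icc (0:ℝ) 1 := fun r =>
    ⟨le_max_left _ _, max_le zero_le_one (min_le_left _ _)⟩
  set lam : (Fin N → ℝ) → ℝ := fun p => max 0 (min 1 (c + 2 - Φ (p, x))) with hlam
  have hlc : Continuous lam := by
    have : Continuous (fun p : Fin N → ℝ => Φ (p, x)) := hΦ.comp (by fun_prop)
    fun_prop
  set ξ : (Fin N → ℝ) → P := fun p => G (r p, lam p) with hξ
  have hξc : Continuous ξ := hG.comp (hrc.prodMk hlc)
  have hξ1 : ∀ p, c < Φ (p, ξ p) := by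
    intro p
    by_cases hp : ‖p‖ ≤ max ρ 0
    · have hg := hGg (r p) (mem_univ _)
      have e := hrid p hp
      by_cases h1 : c + 1 < Φ (p, x)
      · have h2 := hg.2 (by
          rw [hG0]
          simp only
          rw [e]
          exact h1) (lam p) (hcl _)
        simp only at h2
        rw [e] at h2
        exact h2
      · have h2 : lam p = 1 := by
          simp only [hlam]
          rw [min_eq_left (by linarith)]
          norm_num
        have h3 := hg.1
        simp only at h3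
        rw [e] at h3
        simp only [hξ, h2]
        exact h3
    · push Not at hp
      have h1 := hρ p ((le_max_left _ _).trans_lt hp)
      have h2 : lam p = 0 := by
        simp only [hlam]
        apply max_eq_left
        exact (min_le_right _ _).trans (by linarith)
      simp only [hξ, h2]
      rw [hG0]
      linarith
  -- bounded image
  obtain ⟨B, hB⟩ : ∃ B : ℝ, ∀ p, ‖L (ξ p)‖ ≤ B := by
    have hK : IsCompact (G '' (univ ×ˢ Icc (0:ℝ) 1)) := (isCompact_univ.prod isCompact_Icc).image hG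
    obtain ⟨B, hB⟩ := (hK.image hL.norm).bddAbove
    exact ⟨B, fun p => hB ⟨ξ p, ⟨(r p, lam p), ⟨mem_univ _, hcl _⟩, rfl⟩, rfl⟩⟩
  obtain ⟨p, hp⟩ := Helper133.Brouwer.brouwer (fun p => L (ξ p)) (hL.comp hξc) B hB
  have h1 := hξ1 p
  have h2 := hLc (ξ p)
  have h3 : L (ξ p) = p := hp
  rw [h3] at h2
  linarith

end Pool.Agent.Y520.Link
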