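import Mathlib
import Pool.Agent.H826R2.Wein.RelTop
import Pool.Agent.H826R2.Wein.NearPush
import Pool.Agent.H826R2.Wein.Frame
import Pool.Agent.TH607.Calc
import Pool.Agent.W669.Cone.Conv

/-! Pushing contact Hamiltonians with proper orbits. -/

open scoped Topology ContDiff Manifold
open Set Metric Bundle Filter Pool.Agent.Helper186

noncomputable section

namespace Pool.Agent.Y520

open Pool.Agent.H826R2.Wein Pool.Agent.TH607

set_option linter.unusedSectionVars false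

universe u

variable {E : Type u} [NormedAddCommGroup E] [NormedSpace ℝ E] [FiniteDimensional ℝ E]
  {P : Type*} [TopologicalSpace P] [ChartedSpace E P] [IsManifold 𝓘(ℝ, E) ∞ P]
  {β : (x : P) → TangentSpace 𝓘(ℝ, E) x →L[ℝ] ℝ} {m : ℕ}

section flow

variable {n : ℕ} {ι : Imm (E := E) P n} {Γ : Type*} [Group Γ] [MulAction Γ P] (𝒟 : Deck ι Γ)

include 𝒟 in
/-- A push with the Palais-Smale property on one band of levels only. -/
theorem exists_push_band [T2Space P] [SigmaCompactSpace P] {f : P → ℝ}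
    (hf : ContMDiff 𝓘(ℝ, E) 𝓘(ℝ, ℝ) ∞ f) {c : ℝ}
    (hps : ∃ δ > (0:ℝ), ∀ x, |f x| ≤ c → δ ≤ ι.G f x) :
    ∃ h : P × ℝ → P, Continuous h ∧ (∀ y, h (y, 0) = y) ∧
      (∀ y r, 0 ≤ r → f y ≤ f (h (y, r))) ∧
      ∃ T : ℝ, 0 ≤ T ∧ ∀ y, -c ≤ f y → c < f (h (y, T)) := by
  have : IsManifold 𝓘(ℝ, E) 1 P := IsManifold.of_le (n := ∞) (by simp)
  choose Fl h0 hFl using fun x => 𝒟.complete hf x
  have hcont : Continuous fun p : P × ℝ => Fl p.1 p.2 :=
    (contMDiff_flow (ι.smooth_V hf) h0 hFl).continuous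
  have hder : ∀ x t, HasDerivAt (fun s => f (Fl x s))
      (ι.G f (Fl x t) / (1 + ι.G f (Fl x t))) t := by
    intro x t
    have := hasDerivAt_along (W := ι.V f) (hFl x t) hf
    rwa [ι.dForm_V_self] at this
  have hmono : ∀ x, Monotone (fun t => f (Fl x t)) := by
    intro x
    apply monotone_of_deriv_nonneg (fun t => (hder x t).differentiableAt)
    intro t
    rw [(hder x t).deriv]
    have := ι.G_nonneg f (Fl x t)
    positivity
  refine ⟨fun p => Fl p.1 p.2, hcont, h0, ?_, ?_⟩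
  · intro y r hr
    have h1 : f (Fl y 0) ≤ f (Fl y r) := hmono y hr
    rwa [h0] at h1
  obtain ⟨δ, hδ, h⟩ := hps
  set T := (2 * |c| + 1) * (1 + δ) / δ with hT
  have hT0 : 0 < T := by positivity
  refine ⟨T, hT0.le, fun x hx => ?_⟩
  by_contra hlt
  push Not at hlt
  obtain ⟨s, hs, hs'⟩ := exists_hasDerivAt_eq_slope (fun t => f (Fl x t)) _ hT0
    (fun t _ => (hder x t).continuousAt.continuousWithinAt) (fun t _ => hder x t)
  have h1 : f (Fl x 0) ≤ f (Fl x s) := hmono x hs.1.le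
  have h2 : f (Fl x s) ≤ f (Fl x T) := hmono x hs.2.le
  rw [h0] at h1
  simp only at hlt
  have h3 : |f (Fl x s)| ≤ c := abs_le.2 ⟨by linarith, by linarith⟩
  have hc : |c| = c := abs_of_nonneg ((abs_nonneg _).trans h3)
  have h4 := h _ h3
  have h5 : δ / (1 + δ) ≤ ι.G f (Fl x s) / (1 + ι.G f (Fl x s)) := by
    rw [div_le_div_iff₀ (by positivity) (by linarith)]
    nlinarith
  rw [hs', sub_zero, h0, le_div_iff₀ hT0] at h5
  have h6 : δ / (1 + δ) * T = 2 * |c| + 1 := by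
    rw [hT]; field_simp
  rw [h6, hc] at h5
  linarith

end flow

section grad

variable {n : ℕ} (ι : Imm (E := E) P n)

lemma G2_comm (f g : P → ℝ) (x : P) : ι.G2 f g x = ι.G2 g f x := by
  rw [ι.G2_eq, ι.G2_eq, real_inner_comm]

lemma G2_add_left {f g : P → ℝ} (hf : ContMDiff 𝓘(ℝ, E) 𝓘(ℝ, ℝ) ∞ f)
    (hg : ContMDiff 𝓘(ℝ, E) 𝓘(ℝ, ℝ) ∞ g) (h : P → ℝ) (x : P) :
    ι.G2 (fun y => f y + g y) h x = ι.G2 f h x + ι.G2 g h x := by
  unfold Imm.G2
  exact CD.dForm_add hf hg x _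

/-- a lower bound for the gradient of a sum -/
lemma G_add_ge {f g : P → ℝ} (hf : ContMDiff 𝓘(ℝ, E) 𝓘(ℝ, ℝ) ∞ f)
    (hg : ContMDiff 𝓘(ℝ, E) 𝓘(ℝ, ℝ) ∞ g) (x : P) :
    ι.G f x + 2 * ι.G2 g f x ≤ ι.G (fun y => f y + g y) x := by
  have e : ι.G (fun y => f y + g y) x = ι.G f x + 2 * ι.G2 g f x + ι.G g x := by
    have h0 : ι.G (fun y => f y + g y) x =
        ι.G2 (fun y => f y + g y) (fun y => f y + g y) x := rfl
    rw [h0, G2_add_left ι hf hg, G2_comm ι f, G2_comm ι g, G2_add_left ι hf hg,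
      G2_add_left ι hf hg, G2_comm ι f g]
    show ι.G f x + ι.G2 g f x + (ι.G2 g f x + ι.G g x) = _
    ring
  have := ι.G_nonneg g x
  linarith

end grad

variable (A : TAct β m) {n : ℕ} {ι : Imm (E := E) P n} {Γ : Type*} [Group Γ] [MulAction Γ P]

lemma rv_single (i : Fin m) : (TAct.rv (Pi.single i 1) : Fin m → ℝ) = Pi.single i 1 := by
  ext j
  by_cases h : j = i
  · subst h; simp [TAct.rv]
  · simp [TAct.rv, Pi.single_eq_of_ne h]

lemma H_ker {γ : Γ} (hγ : γ ∈ A.ker Γ) (κ : Fin m → ℝ) (x : P) :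
    A.H κ (γ • x) = A.H κ x := by
  rw [A.H_expand, A.H_expand x κ]
  refine Finset.sum_congr rfl fun i _ => ?_
  rw [← rv_single, hγ]

lemma Q_ker' (hc : IsContact β) (𝒟 : Deck ι Γ) {γ : Γ} (hγ : γ ∈ A.ker Γ)
    (κ : Fin m → ℝ) (x : P) : A.Q ι κ (γ • x) = A.Q ι κ x := by
  unfold TAct.Q
  rw [𝒟.G_push γ (A.smooth_H hc.smooth _) (H_ker A hγ κ) x, H_ker A hγ]

lemma smooth_Q (hc : IsContact β) (κ : Fin m → ℝ) :
    ContMDiff 𝓘(ℝ, E) 𝓘(ℝ, ℝ) ∞ (A.Q ι κ) := by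
  have h1 := ι.smooth_G (A.smooth_H hc.smooth κ)
  have h2 := (A.smooth_H hc.smooth κ).mul (A.smooth_H hc.smooth κ)
  have e : A.Q ι κ = fun x => ι.G (A.H κ) x + A.H κ x * A.H κ x := by
    ext1 x
    unfold TAct.Q
    ring
  rw [e]
  exact h1.add h2

/-- `|H_w| ≤ b ‖w‖` on a compact set -/
lemma exists_H_bound (hc : IsContact β) {S : Set P} (hS : IsCompact S) :
    ∃ b : ℝ, 0 ≤ b ∧ ∀ y ∈ S, ∀ w : Fin m → ℝ, |A.H w y| ≤ b * ‖w‖ := by
  have h1 : Continuous (fun y => ∑ i, |A.H (Pi.single i 1) y|) :=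
    continuous_finsetSum _ fun i _ => (A.smooth_H hc.smooth _).continuous.abs
  obtain ⟨b, hb⟩ := (hS.image h1).bddAbove
  refine ⟨max b 0, le_max_right _ _, fun y hy w => ?_⟩
  have h2 : ∑ i, |A.H (Pi.single i 1) y| ≤ b := hb ⟨y, hy, rfl⟩
  rw [A.H_expand]
  calc |∑ i, w i * A.H (Pi.single i 1) y| ≤ ∑ i, |w i * A.H (Pi.single i 1) y| :=
        Finset.abs_sum_le_sum_abs _ _
    _ ≤ ∑ i, ‖w‖ * |A.H (Pi.single i 1) y| := by
        refine Finset.sum_le_sum fun i _ => ?_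
        rw [abs_mul]
        exact mul_le_mul_of_nonneg_right (norm_le_pi_norm w i) (abs_nonneg _)
    _ = (∑ i, |A.H (Pi.single i 1) y|) * ‖w‖ := by rw [← Finset.mul_sum, mul_comm]
    _ ≤ max b 0 * ‖w‖ := mul_le_mul_of_nonneg_right (h2.trans (le_max_left _ _)) (norm_nonneg _)

/-- `|G2 (H_w) f| ≤ b ‖w‖` on a compact set -/
lemma exists_G2_bound (hc : IsContact β) {S : Set P} (hS : IsCompact S) {f : P → ℝ}
    (hf : ContMDiff 𝓘(ℝ, E) 𝓘(ℝ, ℝ) ∞ f) :
    ∃ b : ℝ, 0 ≤ b ∧ ∀ y ∈ S, ∀ w : Fin m → ℝ, |ι.G2 (A.H w) f y| ≤ b * ‖w‖ := by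
  have h1 : Continuous (fun y => ∑ i, |ι.G2 (A.H (Pi.single i 1)) f y|) :=
    continuous_finsetSum _ fun i _ => (ι.smooth_G2 (A.smooth_H hc.smooth _) hf).continuous.abs
  obtain ⟨b, hb⟩ := (hS.image h1).bddAbove
  refine ⟨max b 0, le_max_right _ _, fun y hy w => ?_⟩
  have h2 : ∑ i, |ι.G2 (A.H (Pi.single i 1)) f y| ≤ b := hb ⟨y, hy, rfl⟩
  have h3 : ι.G2 (A.H w) f y = ∑ i, w i * ι.G2 (A.H (Pi.single i 1)) f y :=
    lin_expand
      { toFun := fun κ => ι.G2 (A.H κ) f y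
        map_add' := fun a b => by
          unfold Imm.G2
          rw [A.dH_add hc.smooth]; rfl
        map_smul' := fun c a => by
          unfold Imm.G2
          rw [A.dH_smul hc.smooth]; rfl } w
  rw [h3]
  calc |∑ i, w i * ι.G2 (A.H (Pi.single i 1)) f y|
        ≤ ∑ i, |w i * ι.G2 (A.H (Pi.single i 1)) f y| := Finset.abs_sum_le_sum_abs _ _
    _ ≤ ∑ i, ‖w‖ * |ι.G2 (A.H (Pi.single i 1)) f y| := by
        refine Finset.sum_le_sum fun i _ => ?_
        rw [abs_mul]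
        exact mul_le_mul_of_nonneg_right (norm_le_pi_norm w i) (abs_nonneg _)
    _ = (∑ i, |ι.G2 (A.H (Pi.single i 1)) f y|) * ‖w‖ := by rw [← Finset.mul_sum, mul_comm]
    _ ≤ max b 0 * ‖w‖ := mul_le_mul_of_nonneg_right (h2.trans (le_max_left _ _)) (norm_nonneg _)

/-- **Pushing a Hamiltonian with proper orbit.** -/
theorem push_of_small [T2Space P] [SigmaCompactSpace P] (hc : IsContact β)
    {R : (x : P) → TangentSpace 𝓘(ℝ, E) x} (hR : IsReeb β R) (𝒟 : Deck ι Γ) (hN : A.Norm Γ)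
    (hno : ∀ k : Fin m → ℤ, k ≠ 0 → ∀ x, dForm 𝓘(ℝ, E) (A.H (TAct.rv k)) x ≠ 0)
    {v : Fin m → ℝ} (hv : v ≠ 0)
    (hsm : ∀ C : ℝ, SmallRel (A.ker Γ) {y | A.Q ι v y ≤ C})
    {c c' : ℝ} (hcc : c < c') (K : Set P) (hK : IsCompact K) :
    ∃ h : P × ℝ → P, Continuous h ∧ (∀ y, h (y, 0) = y) ∧
      (∀ y, c' < A.H v y → ∀ r, 0 ≤ r → c < A.H v (h (y, r))) ∧
      ∃ T : ℝ, 0 ≤ T ∧ ∀ y ∈ K, c < A.H v (h (y, T)) := by
  have hHv := A.smooth_H hc.smooth v
  obtain ⟨b, hb⟩ : ∃ b : ℝ, ∀ y ∈ K, -b ≤ A.H v y := by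
    obtain ⟨b, hb⟩ := (hK.image hHv.continuous).bddBelow
    exact ⟨-b, fun y hy => by rw [neg_neg]; exact hb ⟨y, hy, rfl⟩⟩
  set c1 : ℝ := |b| + |c| + 1 with hc1
  have hc1b : b + 1 ≤ c1 := by have := le_abs_self b; have := abs_nonneg c; linarith
  have hc1c : c + 1 ≤ c1 := by have := le_abs_self c; have := abs_nonneg b; linarith
  have hc10 : 0 ≤ c1 := by positivity
  set C₁ : ℝ := (c1 + 1) ^ 2 + 1 with hC₁
  obtain ⟨S₀, hS₀, hS⟩ := hsm (C₁ + 1)
  -- the cutoff function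
  set ψ : ℝ → ℝ := fun q => Real.smoothTransition (C₁ + 1 - q) with hψ
  have hψs : ContDiff ℝ ∞ ψ := Real.smoothTransition.contDiff.comp (contDiff_const.sub contDiff_id)
  have hψ1 : ∀ q ≤ C₁, ψ q = 1 := fun q hq =>
    Real.smoothTransition.one_of_one_le (by linarith)
  have hψ0 : ∀ q, C₁ + 1 ≤ q → ψ q = 0 := fun q hq =>
    Real.smoothTransition.zero_of_nonpos (by linarith)
  have hψa : ∀ q, |ψ q| ≤ 1 := fun q => by
    rw [abs_of_nonneg (Real.smoothTransition.nonneg _)]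
    exact Real.smoothTransition.le_one _
  set χ : P → ℝ := fun y => ψ (A.Q ι v y) with hχ
  have hχs : ContMDiff 𝓘(ℝ, E) 𝓘(ℝ, ℝ) ∞ χ := hψs.contMDiff.comp (smooth_Q A hc v)
  -- bounds on the compact set
  obtain ⟨b1, hb10, hb1⟩ := exists_H_bound A hc hS₀
  obtain ⟨b2, hb20, hb2⟩ := exists_G2_bound (ι := ι) A hc hS₀ hHv
  obtain ⟨b3, hb3⟩ : ∃ b3 : ℝ, ∀ y ∈ S₀, |ι.G2 χ (A.H v) y| ≤ b3 := by
    obtain ⟨b3, hb3⟩ := (hS₀.image (ι.smooth_G2 hχs hHv).continuous.abs).bddAbove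
    exact ⟨b3, fun y hy => hb3 ⟨y, hy, rfl⟩⟩
  set b3' : ℝ := max b3 0 with hb3'
  have hb30 : 0 ≤ b3' := le_max_right _ _
  -- choice of the approximation
  set ε : ℝ := min (1 / 2) ((c' - c) / 2) with hε
  have hε0 : 0 < ε := lt_min (by norm_num) (by linarith)
  set δ₀ : ℝ := min (ε / (b1 + 1)) (1 / 4 / (b2 + b1 * b3' + 1)) with hδ₀
  have hδ₀0 : 0 < δ₀ := by
    refine lt_min (by positivity) (by positivity)
  obtain ⟨k, t, hk, ht, hkt⟩ := Pool.Agent.W669.Cone.exists_approx hv hδ₀0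
  set w : Fin m → ℝ := t • TAct.rv k - v with hw
  have hw1 : b1 * ‖w‖ ≤ ε := by
    have h1 : ‖w‖ ≤ ε / (b1 + 1) := hkt.trans (min_le_left _ _)
    calc b1 * ‖w‖ ≤ (b1 + 1) * (ε / (b1 + 1)) :=
          mul_le_mul (by linarith) h1 (norm_nonneg _) (by linarith)
      _ = ε := by field_simp
  have hw2 : (b2 + b1 * b3') * ‖w‖ ≤ 1 / 4 := by
    have h1 : ‖w‖ ≤ 1 / 4 / (b2 + b1 * b3' + 1) := hkt.trans (min_le_right _ _)
    calc (b2 + b1 * b3') * ‖w‖ ≤ (b2 + b1 * b3' + 1) * (1 / 4 / (b2 + b1 * b3' + 1)) :=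
          mul_le_mul (by linarith) h1 (norm_nonneg _) (by positivity)
      _ = 1 / 4 := by field_simp
  have hHw := A.smooth_H hc.smooth w
  set g : P → ℝ := fun y => χ y * A.H w y with hg
  have hgs : ContMDiff 𝓘(ℝ, E) 𝓘(ℝ, ℝ) ∞ g := hχs.mul hHw
  set f : P → ℝ := fun y => A.H v y + g y with hf
  have hfs : ContMDiff 𝓘(ℝ, E) 𝓘(ℝ, ℝ) ∞ f := hHv.add hgs
  -- `f` is close to `H v`
  have hclose : ∀ y, |f y - A.H v y| ≤ ε := by
    intro y
    have e : f y - A.H v y = χ y * A.H w y := by simp only [hf, hg]; ring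
    rw [e, abs_mul]
    by_cases hy : A.Q ι v y ≤ C₁ + 1
    · obtain ⟨κ, hκ, hκy⟩ := hS y hy
      have h1 := hb1 _ hκy w
      rw [H_ker A hκ] at h1
      have h2 := hψa (A.Q ι v y)
      calc |χ y| * |A.H w y| ≤ 1 * (b1 * ‖w‖) := mul_le_mul h2 h1 (abs_nonneg _) zero_le_one
        _ ≤ ε := by rw [one_mul]; exact hw1
    · have h1 : χ y = 0 := hψ0 _ (not_le.1 hy).le
      rw [h1, abs_zero, zero_mul]
      exact hε0.le
  -- the Palais-Smale property of the approximation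
  obtain ⟨δ, hδ, hps⟩ := A.palaisSmale hc hR 𝒟 hN hno k hk ((c1 + 1) / t)
  have hps' : ∃ δ' > (0:ℝ), ∀ x, |f x| ≤ c1 → δ' ≤ ι.G f x := by
    refine ⟨min (1 / 2) (t ^ 2 * δ), lt_min (by norm_num) (by positivity), fun x hx => ?_⟩
    have hvx : |A.H v x| ≤ c1 + 1 := by
      have h1 := hclose x
      have h2 : ε ≤ 1 / 2 := min_le_left _ _
      have h3 : |A.H v x| ≤ |f x| + |f x - A.H v x| := by
        have := abs_sub_abs_le_abs_sub (A.H v x) (f x)
        rw [abs_sub_comm] at this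
        linarith
      linarith
    have hv2 : (A.H v x) ^ 2 ≤ (c1 + 1) ^ 2 := by
      rw [← sq_abs]
      exact pow_le_pow_left₀ (abs_nonneg _) hvx 2
    have hQ : A.Q ι v x = ι.G (A.H v) x + (A.H v x) ^ 2 := rfl
    rcases lt_or_ge (A.Q ι v x) C₁ with h1 | h1
    · -- near: `f = H_(v + w)`
      refine (min_le_right _ _).trans ?_
      have hcontQ : Continuous (A.Q ι v) := (smooth_Q A hc v).continuous
      have hev : f =ᶠ[𝓝 x] A.H (t • TAct.rv k) := by
        filter_upwards [hcontQ.continuousAt.eventually (gt_mem_nhds h1)] with y hy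
        have h2 : χ y = 1 := hψ1 _ hy.le
        simp only [hf, hg]
        rw [h2, one_mul, ← A.H_add]
        congr 1
        rw [hw]
        abel
      have hGe : ι.G f x = ι.G (A.H (t • TAct.rv k)) x := by
        have h2 : dForm 𝓘(ℝ, E) f x = dForm 𝓘(ℝ, E) (A.H (t • TAct.rv k)) x := hev.mfderiv_eq
        have h3 : ι.grad f x = ι.grad (A.H (t • TAct.rv k)) x := by
          apply ι.grad_unique
          intro u
          rw [ι.grad_spec, h2]
        unfold Imm.G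
        rw [h3, h2]
      have hfx := hev.self_of_nhds
      have hGk : ι.G (A.H (t • TAct.rv k)) x = t ^ 2 * ι.G (A.H (TAct.rv k)) x :=
        bilin_scale (A.GB ι hc.smooth x) t (TAct.rv k)
      rw [hGe, hGk]
      apply mul_le_mul_of_nonneg_left _ (by positivity)
      refine hps x ?_
      rw [hfx, A.H_smul, abs_mul, abs_of_pos ht] at hx
      rw [le_div_iff₀ ht, mul_comm]
      exact hx.trans (by linarith)
    · rcases lt_or_ge (C₁ + 1) (A.Q ι v x) with h2 | h2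
      · -- far: `f = H_v`
        refine (min_le_left _ _).trans ?_
        have hcontQ : Continuous (A.Q ι v) := (smooth_Q A hc v).continuous
        have hev : f =ᶠ[𝓝 x] A.H v := by
          filter_upwards [hcontQ.continuousAt.eventually (lt_mem_nhds h2)] with y hy
          have h2 : χ y = 0 := hψ0 _ hy.le
          simp only [hf, hg]
          rw [h2, zero_mul, add_zero]
        have hGe : ι.G f x = ι.G (A.H v) x := by
          have h2 : dForm 𝓘(ℝ, E) f x = dForm 𝓘(ℝ, E) (A.H v) x := hev.mfderiv_eq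
          have h3 : ι.grad f x = ι.grad (A.H v) x := by
            apply ι.grad_unique
            intro u
            rw [ι.grad_spec, h2]
          unfold Imm.G
          rw [h3, h2]
        rw [hGe]
        linarith
      · -- middle
        refine (min_le_left _ _).trans ?_
        have hG1 : 1 ≤ ι.G (A.H v) x := by linarith
        have h3 := G_add_ge ι hHv hgs x
        -- the mixed term, computed on the compact set
        obtain ⟨κ, hκ, hκx⟩ := hS x h2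
        have hm : ι.G2 g (A.H v) x = χ x * ι.G2 (A.H w) (A.H v) x +
            A.H w x * ι.G2 χ (A.H v) x :=
          dForm_mul (hχs.mdifferentiableAt (by simp)) (hHw.mdifferentiableAt (by simp)) _
        have hinv : ∀ (f₁ : P → ℝ), ContMDiff 𝓘(ℝ, E) 𝓘(ℝ, ℝ) ∞ f₁ →
            (∀ z, f₁ (κ • z) = f₁ z) → ι.G2 f₁ (A.H v) (κ • x) = ι.G2 f₁ (A.H v) x := by
          intro f₁ hf₁ hi
          have h0 := 𝒟.push_grad κ hHv (H_ker A hκ v) x
          have h1' : mfderiv 𝓘(ℝ, E) 𝓘(ℝ, ℝ) (f₁ ∘ (fun x : P => κ • x)) x =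
              (mfderiv 𝓘(ℝ, E) 𝓘(ℝ, ℝ) f₁ (κ • x)).comp
              (mfderiv 𝓘(ℝ, E) 𝓘(ℝ, E) (fun x : P => κ • x) x) :=
            mfderiv_comp _ (hf₁.mdifferentiableAt (by simp))
              ((𝒟.smooth κ).mdifferentiableAt (by simp))
          have h2' : f₁ ∘ (fun x : P => κ • x) = f₁ := by ext1 y; exact hi y
          rw [h2'] at h1'
          have h3' := DFunLike.congr_fun h1' (ι.grad (A.H v) x)
          unfold Imm.G2
          have h4' : dForm 𝓘(ℝ, E) f₁ (κ • x) (ι.grad (A.H v) (κ • x)) =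
              dForm 𝓘(ℝ, E) f₁ (κ • x)
                (mfderiv 𝓘(ℝ, E) 𝓘(ℝ, E) (fun x : P => κ • x) x (ι.grad (A.H v) x) : E) :=
            congrArg (fun w : E => dForm 𝓘(ℝ, E) f₁ (κ • x) w) h0.symm
          rw [h4']
          exact h3'.symm
        have e1 : |ι.G2 (A.H w) (A.H v) x| ≤ b2 * ‖w‖ := by
          rw [← hinv _ hHw (H_ker A hκ w)]
          exact hb2 _ hκx w
        have e2 : |ι.G2 χ (A.H v) x| ≤ b3' := by
          rw [← hinv _ hχs (fun z => by simp only [hχ]; rw [Q_ker' A hc 𝒟 hκ])]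
          exact (hb3 _ hκx).trans (le_max_left _ _)
        have e3 : |A.H w x| ≤ b1 * ‖w‖ := by
          rw [← H_ker A hκ w]
          exact hb1 _ hκx w
        have e4 : |ι.G2 g (A.H v) x| ≤ 1 / 4 := by
          rw [hm]
          calc |χ x * ι.G2 (A.H w) (A.H v) x + A.H w x * ι.G2 χ (A.H v) x|
              ≤ |χ x * ι.G2 (A.H w) (A.H v) x| + |A.H w x * ι.G2 χ (A.H v) x| := abs_add_le _ _
            _ ≤ 1 * (b2 * ‖w‖) + (b1 * ‖w‖) * b3' := by
                rw [abs_mul, abs_mul]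
                exact add_le_add (mul_le_mul (hψa _) e1 (abs_nonneg _) zero_le_one)
                  (mul_le_mul e3 e2 (abs_nonneg _) (by positivity))
            _ = (b2 + b1 * b3') * ‖w‖ := by ring
            _ ≤ 1 / 4 := hw2
        have e5 := (abs_le.1 e4).1
        have e6 : ι.G f x = ι.G (fun y => A.H v y + g y) x := rfl
        rw [e6]
        linarith
  obtain ⟨h, hhc, hh0, hmono, T, hT0, hT⟩ := exists_push_band 𝒟 hfs hps'
  refine ⟨h, hhc, hh0, ?_, T, hT0, ?_⟩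
  · intro y hy r hr
    have h1 := hmono y r hr
    have h2 := (abs_le.1 (hclose y)).1
    have h3 := (abs_le.1 (hclose (h (y, r)))).2
    have h4 : ε ≤ (c' - c) / 2 := min_le_right _ _
    linarith
  · intro y hy
    have h1 := hT y (by
      have h2 := (abs_le.1 (hclose y)).1
      have h4 : ε ≤ 1 / 2 := min_le_left _ _
      have h5 := hb y hy
      linarith)
    have h3 := (abs_le.1 (hclose (h (y, T)))).2
    have h4 : ε ≤ 1 / 2 := min_le_left _ _
    linarith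

end Pool.Agent.Y520
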