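import Mathlib

/-! Positive definite real matrices: trace inequalities and geometric means. -/

open Matrix

noncomputable section

namespace Pool.Agent.Y520.Mat

variable {m : ℕ}

/-- square real matrices -/
abbrev Mt (m : ℕ) : Type := Matrix (Fin m) (Fin m) ℝ

lemma psd_conj {A : Mt m} (hA : A.PosSemidef) (B : Mt m) : (B * A * Bᵀ).PosSemidef := by
  have := hA.mul_mul_conjTranspose_same B
  rwa [conjTranspose_eq_transpose_of_trivial] at this

lemma pd_conj {A B : Mt m} (hA : A.PosDef) (hB : IsUnit B) : (B * A * Bᵀ).PosDef := by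
  have := hA.mul_mul_conjTranspose_same (B := B) (vecMul_injective_iff_isUnit.2 hB)
  rwa [conjTranspose_eq_transpose_of_trivial] at this

lemma sym {A : Mt m} (hA : A.PosSemidef) : Aᵀ = A := by
  have := hA.isHermitian.eq
  rwa [conjTranspose_eq_transpose_of_trivial] at this

lemma symd {A : Mt m} (hA : A.PosDef) : Aᵀ = A := sym hA.posSemidef

lemma det_ne {A : Mt m} (hA : A.PosDef) : A.det ≠ 0 := hA.det_pos.ne'

lemma det_unit {A : Mt m} (hA : A.PosDef) : IsUnit A.det := isUnit_iff_ne_zero.2 (det_ne hA)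

lemma mul_inv {A : Mt m} (hA : A.PosDef) : A * A⁻¹ = 1 := mul_nonsing_inv _ (det_unit hA)

lemma inv_mul {A : Mt m} (hA : A.PosDef) : A⁻¹ * A = 1 := nonsing_inv_mul _ (det_unit hA)

open scoped MatrixOrder in
lemma exists_sq {A : Mt m} (hA : A.PosSemidef) : ∃ R : Mt m, A = Rᵀ * R := by
  obtain ⟨R, hR⟩ := CStarAlgebra.nonneg_iff_eq_star_mul_self.mp hA.nonneg
  refine ⟨R, ?_⟩
  rw [hR, star_eq_conjTranspose, conjTranspose_eq_transpose_of_trivial]

lemma trace_nonneg {A B : Mt m} (hA : A.PosSemidef) (hB : B.PosSemidef) :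
    0 ≤ (A * B).trace := by
  obtain ⟨R, rfl⟩ := exists_sq hB
  have h : (A * (Rᵀ * R)).trace = (R * A * Rᵀ).trace := by
    rw [← Matrix.mul_assoc, trace_mul_comm, ← Matrix.mul_assoc]
  rw [h]
  exact (psd_conj hA R).trace_nonneg

lemma eq_zero_of_trace {A B : Mt m} (hA : A.PosDef) (hB : B.PosSemidef)
    (h0 : (A * B).trace = 0) : B = 0 := by
  obtain ⟨R, rfl⟩ := exists_sq hB
  have h : (A * (Rᵀ * R)).trace = (R * A * Rᵀ).trace := by
    rw [← Matrix.mul_assoc, trace_mul_comm, ← Matrix.mul_assoc]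
  rw [h] at h0
  have h1 := ((psd_conj hA.posSemidef R).trace_eq_zero_iff).1 h0
  have h2 : Rᵀ = 0 := by
    ext i j
    by_contra hij
    have hne : Rᵀ *ᵥ (Pi.single j 1) ≠ 0 := by
      intro h3
      have := congrFun h3 i
      rw [mulVec_single_one] at this
      exact hij this
    have h3 := hA.dotProduct_mulVec_pos hne
    have h4 : star (Rᵀ *ᵥ (Pi.single j 1)) ⬝ᵥ (A *ᵥ (Rᵀ *ᵥ (Pi.single j 1))) =
        (Pi.single j 1 : Fin m → ℝ) ⬝ᵥ ((R * A * Rᵀ) *ᵥ (Pi.single j 1)) := by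
      rw [star_trivial, ← mulVec_mulVec, ← mulVec_mulVec, dotProduct_mulVec (Pi.single j 1 : Fin m → ℝ) R]
      congr 1
      rw [mulVec_transpose]
    rw [h4, h1, zero_mulVec, dotProduct_zero] at h3
    exact lt_irrefl _ h3
  rw [h2, Matrix.zero_mul]

/-- a positive semidefinite matrix `D W D` with `W` positive definite vanishes only for `D = 0` -/
lemma eq_zero_of_mul {D W : Mt m} (hW : W.PosDef) (hD : Dᵀ = D) (h : D * W * D = 0) : D = 0 := by
  have h1 : (W * (D * Dᵀ)).trace = 0 := by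
    have : (W * (D * Dᵀ)).trace = (D * W * D).trace := by
      rw [hD, ← Matrix.mul_assoc, trace_mul_comm, ← Matrix.mul_assoc]
    rw [this, h, trace_zero]
  have h2 : (D * Dᵀ).PosSemidef := by
    have := psd_conj (A := (1 : Mt m)) PosSemidef.one D
    rwa [Matrix.mul_one] at this
  have h3 := eq_zero_of_trace hW h2 h1
  have h4 : (D * Dᴴ).trace = 0 := by
    rw [conjTranspose_eq_transpose_of_trivial, h3, trace_zero]
  exact trace_mul_conjTranspose_self_eq_zero_iff.1 h4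

/-- **Uniqueness of the geometric mean.** -/
lemma mean_unique {G G' W : Mt m} (hG : G.PosDef) (hG' : G'.PosDef) (hW : W.PosDef)
    (h : G * W * G = G' * W * G') : G = G' := by
  set D := G - G' with hD
  set S := G + G' with hS
  have hSp : S.PosDef := hG.add hG'
  have hDs : Dᵀ = D := by rw [hD, transpose_sub, symd hG, symd hG']
  have h1 : D * W * S + S * W * D = 0 := by
    have : D * W * S + S * W * D = 2 • (G * W * G - G' * W * G') := by
      rw [hD, hS]
      noncomm_ring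
    rw [this, h, sub_self, smul_zero]
  have h2 : ((D * W * D) * (W * S * W)).trace = 0 := by
    have e1 : (W * D * W * (D * W * S + S * W * D)).trace = 0 := by
      rw [h1, Matrix.mul_zero, trace_zero]
    have e2 : (W * D * W * (D * W * S + S * W * D)).trace =
        ((D * W * D) * (W * S * W)).trace + ((D * W * D) * (W * S * W)).trace := by
      rw [Matrix.mul_add, trace_add]
      congr 1
      · have : W * D * W * (D * W * S) = W * (D * W * D * W * S) := by noncomm_ring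
        rw [this, trace_mul_comm]
        congr 1
        noncomm_ring
      · have : W * D * W * (S * W * D) = (W * D * W * S * W) * D := by noncomm_ring
        rw [this, trace_mul_comm]
        congr 1
        noncomm_ring
    rw [e2] at e1
    linarith
  have h3 : (W * S * W).PosDef := by
    have := pd_conj hSp hW.isUnit
    rwa [symd hW] at this
  have h4 : (D * W * D).PosSemidef := by
    have := psd_conj hW.posSemidef D
    rwa [hDs] at this
  rw [trace_mul_comm] at h2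
  have h5 := eq_zero_of_trace h3 h4 h2
  have h6 := eq_zero_of_mul hW hDs h5
  exact sub_eq_zero.1 h6

/-- the function which is minimised -/
def ff (Q S : Mt m) : ℝ := (Q * S).trace + (Q⁻¹ * S⁻¹).trace

/-- strict convexity at midpoints -/
lemma ff_mid {Q S S' G : Mt m} (hQ : Q.PosDef) (hS : S.PosDef) (hG : G.PosDef)
    (hm : G * S⁻¹ * G = S') (h : ff Q S ≤ ff Q G) (h' : ff Q S' ≤ ff Q G) : S = S' := by
  have eS1 := mul_inv hS
  have eS2 := inv_mul hS
  have eG1 := mul_inv hG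
  have eG2 := inv_mul hG
  have hS' : S'⁻¹ = G⁻¹ * S * G⁻¹ := by
    rw [← hm, Matrix.mul_inv_rev, Matrix.mul_inv_rev, nonsing_inv_nonsing_inv _ (det_unit hS),
      Matrix.mul_assoc]
  have h1 : S + S' - (G + G) = (S - G) * S⁻¹ * (S - G) := by
    rw [← hm]
    have : (S - G) * S⁻¹ * (S - G) = (S * S⁻¹) * S - (S * S⁻¹) * G - G * (S⁻¹ * S) +
        G * S⁻¹ * G := by noncomm_ring
    rw [this, eS1, eS2]
    noncomm_ring
  have h2 : S⁻¹ + S'⁻¹ - (G⁻¹ + G⁻¹) = (S⁻¹ - G⁻¹) * S * (S⁻¹ - G⁻¹) := by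
    rw [hS']
    have : (S⁻¹ - G⁻¹) * S * (S⁻¹ - G⁻¹) = (S⁻¹ * S) * S⁻¹ - (S⁻¹ * S) * G⁻¹ -
        G⁻¹ * (S * S⁻¹) + G⁻¹ * S * G⁻¹ := by noncomm_ring
    rw [this, eS1, eS2]
    noncomm_ring
  have hd : (S - G)ᵀ = S - G := by rw [transpose_sub, symd hS, symd hG]
  have hd' : (S⁻¹ - G⁻¹)ᵀ = S⁻¹ - G⁻¹ := by rw [transpose_sub, symd hS.inv, symd hG.inv]
  have p1 : ((S - G) * S⁻¹ * (S - G)).PosSemidef := by
    have := psd_conj hS.inv.posSemidef (S - G)
    rwa [hd] at this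
  have p2 : ((S⁻¹ - G⁻¹) * S * (S⁻¹ - G⁻¹)).PosSemidef := by
    have := psd_conj hS.posSemidef (S⁻¹ - G⁻¹)
    rwa [hd'] at this
  have t1 := trace_nonneg hQ.posSemidef p1
  have t2 := trace_nonneg hQ.inv.posSemidef p2
  have e1 : (Q * ((S - G) * S⁻¹ * (S - G))).trace = (Q * S).trace + (Q * S').trace -
      2 * (Q * G).trace := by
    rw [← h1, Matrix.mul_sub, Matrix.mul_add, Matrix.mul_add, trace_sub, trace_add, trace_add]
    ring
  have e2 : (Q⁻¹ * ((S⁻¹ - G⁻¹) * S * (S⁻¹ - G⁻¹))).trace = (Q⁻¹ * S⁻¹).trace +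
      (Q⁻¹ * S'⁻¹).trace - 2 * (Q⁻¹ * G⁻¹).trace := by
    rw [← h2, Matrix.mul_sub, Matrix.mul_add, Matrix.mul_add, trace_sub, trace_add, trace_add]
    ring
  unfold ff at h h'
  have h0 : (Q * ((S - G) * S⁻¹ * (S - G))).trace = 0 := by
    rw [e1] at t1 ⊢
    rw [e2] at t2
    linarith
  have h3 := eq_zero_of_trace hQ p1 h0
  have h4 := eq_zero_of_mul hS.inv hd h3
  have h5 : S = G := sub_eq_zero.1 h4
  rw [← hm, ← h5, eS1, Matrix.one_mul]

/-- the arithmetic-geometric inequality -/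
lemma ff_inv {S S' : Mt m} (hS : S.PosDef) (hS' : S'.PosDef) : ff S⁻¹ S ≤ ff S⁻¹ S' := by
  unfold ff
  rw [nonsing_inv_nonsing_inv _ (det_unit hS)]
  have hd : (S' - S)ᵀ = S' - S := by rw [transpose_sub, symd hS', symd hS]
  have p1 : ((S' - S) * S⁻¹ * (S' - S)).PosSemidef := by
    have := psd_conj hS.inv.posSemidef (S' - S)
    rwa [hd] at this
  have t1 := trace_nonneg p1 hS'.inv.posSemidef
  have e : (S' - S) * S⁻¹ * (S' - S) * S'⁻¹ = S' * S⁻¹ * (S' * S'⁻¹) - (S * S⁻¹) * (S' * S'⁻¹)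
      - S' * (S⁻¹ * S) * S'⁻¹ + S * (S⁻¹ * S) * S'⁻¹ := by noncomm_ring
  rw [e, mul_inv hS', mul_inv hS, inv_mul hS, Matrix.mul_one, Matrix.mul_one, Matrix.mul_one,
    Matrix.mul_one, mul_inv hS', trace_add, trace_sub, trace_sub] at t1
  rw [inv_mul hS, mul_inv hS, trace_mul_comm S⁻¹ S']
  linarith

/-- the value at a reference point bounds the trace -/
lemma trace_le_ff {Q S : Mt m} (hQ : Q.PosDef) (hS : S.PosDef) : (Q * S).trace ≤ ff Q S := by
  have := trace_nonneg hQ.inv.posSemidef hS.inv.posSemidef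
  unfold ff
  linarith

/-- invariance -/
lemma ff_conj {Q S B : Mt m} (hB : IsUnit B.det) :
    ff (B⁻¹ᵀ * Q * B⁻¹) (B * S * Bᵀ) = ff Q S := by
  have b1 := mul_nonsing_inv B hB
  have b2 := nonsing_inv_mul B hB
  have b3 : B⁻¹ᵀ * Bᵀ = 1 := by rw [← transpose_mul, b1, transpose_one]
  have b4 : Bᵀ * B⁻¹ᵀ = 1 := by rw [← transpose_mul, b2, transpose_one]
  unfold ff
  congr 1
  · have e : B⁻¹ᵀ * Q * B⁻¹ * (B * S * Bᵀ) = B⁻¹ᵀ * (Q * (B⁻¹ * B) * S * Bᵀ) := by noncomm_ring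
    rw [e, b2, Matrix.mul_one, trace_mul_comm, Matrix.mul_assoc, b4, Matrix.mul_one]
  · have i1 : (B⁻¹ᵀ * Q * B⁻¹)⁻¹ = B * Q⁻¹ * Bᵀ := by
      rw [Matrix.mul_inv_rev, Matrix.mul_inv_rev, nonsing_inv_nonsing_inv _ hB,
        ← transpose_nonsing_inv, nonsing_inv_nonsing_inv _ hB, Matrix.mul_assoc]
    have i2 : (B * S * Bᵀ)⁻¹ = B⁻¹ᵀ * S⁻¹ * B⁻¹ := by
      rw [Matrix.mul_inv_rev, Matrix.mul_inv_rev, ← transpose_nonsing_inv, Matrix.mul_assoc]
    rw [i1, i2]
    have e : B * Q⁻¹ * Bᵀ * (B⁻¹ᵀ * S⁻¹ * B⁻¹) = B * (Q⁻¹ * (Bᵀ * B⁻¹ᵀ) * S⁻¹ * B⁻¹) := by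
      noncomm_ring
    rw [e, b4, Matrix.mul_one, trace_mul_comm, Matrix.mul_assoc, b2, Matrix.mul_one]

end Pool.Agent.Y520.Mat
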