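import Mathlib
import Pool.Agent.Y520.Mat

/-! Totally geodesic sets of positive definite matrices: nearest points and midpoints. -/

open Matrix Set Filter Topology

noncomputable section

namespace Pool.Agent.Y520.Mat

variable {m : ℕ}

/-- Cauchy-Schwarz -/
lemma cs {A : Mt m} (hA : A.PosDef) (a u : Fin m → ℝ) :
    (a ⬝ᵥ u) ^ 2 ≤ (a ⬝ᵥ A *ᵥ a) * (u ⬝ᵥ A⁻¹ *ᵥ u) := by
  obtain ⟨R, hR⟩ := exists_sq hA.posSemidef
  have h1 : a ⬝ᵥ u = (R *ᵥ a) ⬝ᵥ (R *ᵥ (A⁻¹ *ᵥ u)) := by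
    rw [dotProduct_mulVec, ← mulVec_transpose, mulVec_mulVec, ← hR, dotProduct_mulVec,
      ← mulVec_transpose, transpose_nonsing_inv, symd hA, mulVec_mulVec, inv_mul hA, one_mulVec]
  have h2 : a ⬝ᵥ A *ᵥ a = (R *ᵥ a) ⬝ᵥ (R *ᵥ a) := by
    rw [hR, ← mulVec_mulVec, dotProduct_mulVec, vecMul_transpose]
  have h3 : u ⬝ᵥ A⁻¹ *ᵥ u = (R *ᵥ (A⁻¹ *ᵥ u)) ⬝ᵥ (R *ᵥ (A⁻¹ *ᵥ u)) := by
    have : (R *ᵥ (A⁻¹ *ᵥ u)) ⬝ᵥ (R *ᵥ (A⁻¹ *ᵥ u)) = (A⁻¹ *ᵥ u) ⬝ᵥ (A *ᵥ (A⁻¹ *ᵥ u)) := by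
      rw [hR, dotProduct_mulVec, ← mulVec_transpose, mulVec_mulVec, dotProduct_comm]
    rw [this, mulVec_mulVec, mul_inv hA, one_mulVec, dotProduct_comm]
  rw [h1, h2, h3]
  have := Finset.sum_mul_sq_le_sq_mul_sq Finset.univ (R *ᵥ a) (R *ᵥ (A⁻¹ *ᵥ u))
  simpa [dotProduct, sq] using this

lemma quad_le {A M : Mt m} (hA : A.PosDef) (hM : M.PosSemidef) (a : Fin m → ℝ) :
    a ⬝ᵥ M *ᵥ a ≤ (a ⬝ᵥ A *ᵥ a) * (M * A⁻¹).trace := by
  obtain ⟨N, rfl⟩ := exists_sq hM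
  have h1 : a ⬝ᵥ (Nᵀ * N) *ᵥ a = ∑ k, (a ⬝ᵥ N k) ^ 2 := by
    rw [← mulVec_mulVec, dotProduct_mulVec, ← mulVec_transpose, transpose_transpose]
    simp only [dotProduct, mulVec, sq]
    refine Finset.sum_congr rfl fun k _ => ?_
    congr 1 <;> exact Finset.sum_congr rfl fun j _ => mul_comm _ _
  have h2 : (Nᵀ * N * A⁻¹).trace = ∑ k, N k ⬝ᵥ A⁻¹ *ᵥ N k := by
    rw [Matrix.mul_assoc, trace_mul_comm]
    simp only [trace, diag_apply, mul_apply, dotProduct, mulVec, transpose_apply]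
    refine Finset.sum_congr rfl fun k _ => ?_
    simp only [Finset.sum_mul, Finset.mul_sum]
    rw [Finset.sum_comm]
    refine Finset.sum_congr rfl fun i _ => Finset.sum_congr rfl fun j _ => ?_
    ring
  rw [h1, h2, Finset.mul_sum]
  exact Finset.sum_le_sum fun k _ => cs hA a (N k)

lemma diag_eq (S : Mt m) (i : Fin m) :
    (Pi.single i 1 : Fin m → ℝ) ⬝ᵥ S *ᵥ (Pi.single i 1) = S i i := by
  rw [mulVec_single_one, single_one_dotProduct]
  rfl

/-- entries of a positive semidefinite matrix -/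
lemma entry_le {Q S : Mt m} (hQ : Q.PosDef) (hS : S.PosSemidef) (i j : Fin m) :
    |S i j| ≤ Q⁻¹.trace * (Q * S).trace := by
  have ht := trace_nonneg hQ.posSemidef hS
  have hd : ∀ i, S i i ≤ Q⁻¹.trace * (Q * S).trace := by
    intro i
    have h1 := quad_le hQ.inv hS (Pi.single i 1)
    rw [diag_eq, diag_eq, nonsing_inv_nonsing_inv _ (det_unit hQ), trace_mul_comm] at h1
    refine h1.trans (mul_le_mul_of_nonneg_right ?_ ht)
    exact Finset.single_le_sum (f := fun i => Q⁻¹ i i)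
      (fun k _ => hQ.inv.posSemidef.diag_nonneg) (Finset.mem_univ i)
  have h2 : ∀ e : ℝ, e ^ 2 = 1 → 2 * (e * S i j) ≤ S i i + S j j := by
    intro e he
    have h3 := hS.dotProduct_mulVec_nonneg (Pi.single i 1 - e • Pi.single j 1)
    rw [star_trivial, mulVec_sub, mulVec_smul, sub_dotProduct, dotProduct_sub, dotProduct_sub,
      smul_dotProduct, smul_dotProduct, dotProduct_smul, dotProduct_smul, diag_eq, diag_eq,
      mulVec_single_one, mulVec_single_one, single_one_dotProduct, single_one_dotProduct] at h3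
    have h4 : S j i = S i j := by
      have := congrFun (congrFun (sym hS) i) j
      exact this
    simp only [smul_eq_mul, col_apply] at h3
    have h5 : e * (e * S j j) = S j j := by rw [← mul_assoc, ← sq, he, one_mul]
    rw [h4, h5] at h3
    linarith
  have h3 := h2 1 (by norm_num)
  have h4 := h2 (-1) (by norm_num)
  have h5 := hd i
  have h6 := hd j
  rw [abs_le]
  constructor <;> linarith

lemma continuousAt_inv {S : Mt m} (hS : S.det ≠ 0) : ContinuousAt (fun T : Mt m => T⁻¹) S := by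
  have e : (fun T : Mt m => T⁻¹) = fun T => (T.det)⁻¹ • T.adjugate := by
    ext1 T
    rw [inv_def, Ring.inverse_eq_inv']
  rw [e]
  have h1 : ContinuousAt (fun T : Mt m => (T.det)⁻¹) S :=
    (Continuous.matrix_det continuous_id).continuousAt.inv₀ hS
  exact h1.smul (Continuous.matrix_adjugate continuous_id).continuousAt

/-- A totally geodesic set of positive definite matrices. -/
structure TG (X : Set (Mt m)) : Prop where
  pos : ∀ S ∈ X, S.PosDef
  closed : ∀ S ∈ closure X, S.PosDef → S ∈ X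
  refl : ∀ S ∈ X, ∀ T ∈ X, T * S⁻¹ * T ∈ X
  mid : ∀ S ∈ X, ∀ T ∈ X, ∃ G ∈ X, G * S⁻¹ * G = T

/-- bounded parts -/
def KB (X : Set (Mt m)) (B : ℝ) : Set (Mt m) := {S | S ∈ X ∧ ∀ i j, |S i j| ≤ B ∧ |S⁻¹ i j| ≤ B}

lemma KB_mono {X : Set (Mt m)} {B B' : ℝ} (h : B ≤ B') : KB X B ⊆ KB X B' :=
  fun _ hS => ⟨hS.1, fun i j => ⟨(hS.2 i j).1.trans h, (hS.2 i j).2.trans h⟩⟩

lemma isCompact_box (B : ℝ) : IsCompact {S : Mt m | ∀ i j, |S i j| ≤ B} := by
  have h : IsCompact (Set.pi univ fun _ : Fin m => Set.pi univ fun _ : Fin m => Icc (-B) B) :=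
    isCompact_univ_pi fun _ => isCompact_univ_pi fun _ => isCompact_Icc
  have e : {S : Mt m | ∀ i j, |S i j| ≤ B} =
      (Set.pi univ fun _ : Fin m => Set.pi univ fun _ : Fin m => Icc (-B) B) := by
    ext S
    constructor
    · intro h i _ j _
      exact abs_le.1 (h i j)
    · intro h i j
      exact abs_le.2 (h i (mem_univ i) j (mem_univ j))
  rw [e]
  exact h

lemma psd_closure {X : Set (Mt m)} (h : ∀ S ∈ X, S.PosDef) {S : Mt m} (hS : S ∈ closure X) :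
    S.PosSemidef := by
  have hsym : Sᵀ = S := by
    have hc : IsClosed {S : Mt m | Sᵀ = S} := isClosed_eq (by fun_prop) continuous_id
    exact closure_minimal (fun T hT => symd (h T hT)) hc hS
  refine PosSemidef.of_dotProduct_mulVec_nonneg ?_ fun u => ?_
  · show Sᴴ = S
    rw [conjTranspose_eq_transpose_of_trivial, hsym]
  · have hc : IsClosed {S : Mt m | 0 ≤ star u ⬝ᵥ S *ᵥ u} := by
      refine isClosed_le continuous_const ?_
      fun_prop
    exact closure_minimal (fun T hT => (h T hT).posSemidef.dotProduct_mulVec_nonneg u) hc hS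

lemma TG.isCompact_KB {X : Set (Mt m)} (h : TG X) (B : ℝ) : IsCompact (KB X B) := by
  set C : Set (Mt m × Mt m) := {p | p.1 ∈ closure X ∧ p.1 * p.2 = 1} with hC
  have hCc : IsClosed C :=
    (isClosed_closure.preimage continuous_fst).inter (isClosed_eq (by fun_prop) continuous_const)
  have hK : IsCompact (({S : Mt m | ∀ i j, |S i j| ≤ B} ×ˢ {S : Mt m | ∀ i j, |S i j| ≤ B}) ∩ C) :=
    ((isCompact_box B).prod (isCompact_box B)).inter_right hCc
  have e : KB X B = Prod.fst '' (({S : Mt m | ∀ i j, |S i j| ≤ B} ×ˢ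
      {S : Mt m | ∀ i j, |S i j| ≤ B}) ∩ C) := by
    ext S
    constructor
    · intro hS
      refine ⟨(S, S⁻¹), ⟨⟨fun i j => (hS.2 i j).1, fun i j => (hS.2 i j).2⟩,
        subset_closure hS.1, mul_inv (h.pos S hS.1)⟩, rfl⟩
    · rintro ⟨⟨S', W⟩, ⟨⟨h1, h2⟩, h3, h4⟩, rfl⟩
      simp only at h1 h2 h3 h4
      have h5 : S'⁻¹ = W := inv_eq_right_inv h4
      have h6 : S'.PosDef := by
        rw [(psd_closure h.pos h3).posDef_iff_isUnit]
        exact IsUnit.of_mul_eq_one W h4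
      exact ⟨h.closed S' h3 h6, fun i j => ⟨h1 i j, by rw [h5]; exact h2 i j⟩⟩
  rw [e]
  exact hK.image continuous_fst

/-- bound for the entries of a matrix with small value -/
def bd (Q : Mt m) (c : ℝ) : ℝ := (Q.trace + Q⁻¹.trace) * c

lemma mem_KB {X : Set (Mt m)} (h : TG X) {Q S : Mt m} (hQ : Q.PosDef) (hS : S ∈ X) {c : ℝ}
    (hc : ff Q S ≤ c) : S ∈ KB X (bd Q c) := by
  have hSp := h.pos S hS
  have t1 := trace_nonneg hQ.posSemidef hSp.posSemidef
  have t2 := trace_nonneg hQ.inv.posSemidef hSp.inv.posSemidef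
  have q1 := hQ.posSemidef.trace_nonneg
  have q2 := hQ.inv.posSemidef.trace_nonneg
  unfold ff at hc
  refine ⟨hS, fun i j => ⟨?_, ?_⟩⟩
  · refine (entry_le hQ hSp.posSemidef i j).trans ?_
    unfold bd
    exact mul_le_mul (by linarith) (by linarith) t1 (by linarith)
  · have := entry_le hQ.inv hSp.inv.posSemidef i j
    rw [nonsing_inv_nonsing_inv _ (det_unit hQ)] at this
    refine this.trans ?_
    unfold bd
    exact mul_le_mul (by linarith) (by linarith) t2 (by linarith)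

lemma continuousAt_ff {Q S : Mt m} (hQ : Q.PosDef) (hS : S.PosDef) :
    ContinuousAt (fun p : Mt m × Mt m => ff p.1 p.2) (Q, S) := by
  unfold ff
  have h1 : ContinuousAt (fun p : Mt m × Mt m => p.1⁻¹) (Q, S) :=
    ContinuousAt.comp (f := Prod.fst) (g := fun T : Mt m => T⁻¹) (x := (Q, S))
      (continuousAt_inv (det_ne hQ)) continuous_fst.continuousAt
  have h2 : ContinuousAt (fun p : Mt m × Mt m => p.2⁻¹) (Q, S) :=
    ContinuousAt.comp (f := Prod.snd) (g := fun T : Mt m => T⁻¹) (x := (Q, S))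
      (continuousAt_inv (det_ne hS)) continuous_snd.continuousAt
  have htr : Continuous (fun T : Mt m => T.trace) := Continuous.matrix_trace continuous_id
  have h3 : ContinuousAt (fun p : Mt m × Mt m => (p.1⁻¹ * p.2⁻¹).trace) (Q, S) :=
    ContinuousAt.comp (f := fun p : Mt m × Mt m => p.1⁻¹ * p.2⁻¹) (g := fun T : Mt m => T.trace)
      htr.continuousAt (h1.mul h2)
  have h4 : ContinuousAt (fun p : Mt m × Mt m => (p.1 * p.2).trace) (Q, S) :=
    (htr.comp (continuous_fst.mul continuous_snd)).continuousAt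
  exact h4.add h3

lemma tendsto_inv {α : Type*} {l : Filter α} {f : α → Mt m} {Q : Mt m} (hQ : Q.PosDef)
    (hf : Tendsto f l (𝓝 Q)) : Tendsto (fun x => (f x)⁻¹) l (𝓝 Q⁻¹) :=
  Tendsto.comp (g := fun T : Mt m => T⁻¹) (continuousAt_inv (det_ne hQ)).tendsto hf

lemma tendsto_trace {α : Type*} {l : Filter α} {f : α → Mt m} {Q : Mt m}
    (hf : Tendsto f l (𝓝 Q)) : Tendsto (fun x => (f x).trace) l (𝓝 Q.trace) :=
  Tendsto.comp (g := fun T : Mt m => T.trace)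
    (Continuous.matrix_trace continuous_id).continuousAt.tendsto hf

lemma tendsto_ff {α : Type*} {l : Filter α} {f g : α → Mt m} {Q S : Mt m} (hQ : Q.PosDef)
    (hS : S.PosDef) (hf : Tendsto f l (𝓝 Q)) (hg : Tendsto g l (𝓝 S)) :
    Tendsto (fun x => ff (f x) (g x)) l (𝓝 (ff Q S)) := by
  have h1 := tendsto_trace (hf.mul hg)
  have h2 := tendsto_trace ((tendsto_inv hQ hf).mul (tendsto_inv hS hg))
  unfold ff
  exact h1.add h2

lemma exists_min {X : Set (Mt m)} (h : TG X) {Q : Mt m} (hQ : Q.PosDef) (hne : X.Nonempty) :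
    ∃ S ∈ X, ∀ S' ∈ X, ff Q S ≤ ff Q S' := by
  obtain ⟨T₁, hT₁⟩ := hne
  have hT := mem_KB h hQ hT₁ (le_refl _)
  have hcont : ContinuousOn (ff Q) (KB X (bd Q (ff Q T₁))) := by
    intro S hS
    have h1 := continuousAt_ff hQ (h.pos S hS.1)
    exact (ContinuousAt.comp (f := fun S => (Q, S)) (g := fun p : Mt m × Mt m => ff p.1 p.2)
      h1 (by fun_prop)).continuousWithinAt
  obtain ⟨S, hS, hmin⟩ := (h.isCompact_KB _).exists_isMinOn ⟨T₁, hT⟩ hcont
  refine ⟨S, hS.1, fun S' hS' => ?_⟩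
  by_cases hc : ff Q S' ≤ ff Q T₁
  · exact hmin (mem_KB h hQ hS' hc)
  · exact (hmin hT).trans (not_le.1 hc).le

/-- the minimising matrix -/
def mn (X : Set (Mt m)) (Q : Mt m) : Mt m :=
  open Classical in if h : ∃ S ∈ X, ∀ S' ∈ X, ff Q S ≤ ff Q S' then h.choose else 1

lemma mn_spec {X : Set (Mt m)} (h : TG X) {Q : Mt m} (hQ : Q.PosDef) (hne : X.Nonempty) :
    mn X Q ∈ X ∧ ∀ S' ∈ X, ff Q (mn X Q) ≤ ff Q S' := by
  unfold mn
  rw [dif_pos (exists_min h hQ hne)]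
  exact (exists_min h hQ hne).choose_spec

lemma min_unique {X : Set (Mt m)} (h : TG X) {Q S S' : Mt m} (hQ : Q.PosDef) (hS : S ∈ X)
    (hS' : S' ∈ X) (h1 : ∀ T ∈ X, ff Q S ≤ ff Q T) (h2 : ∀ T ∈ X, ff Q S' ≤ ff Q T) : S = S' := by
  obtain ⟨G, hG, hm⟩ := h.mid S hS S' hS'
  exact ff_mid hQ (h.pos S hS) (h.pos G hG) hm (h1 G hG) (h2 G hG)

lemma mn_inv {X : Set (Mt m)} (h : TG X) {T : Mt m} (hT : T ∈ X) : mn X T⁻¹ = T := by
  obtain ⟨h1, h2⟩ := mn_spec h (h.pos T hT).inv ⟨T, hT⟩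
  exact min_unique h (h.pos T hT).inv h1 hT h2
    (fun S hS => ff_inv (h.pos T hT) (h.pos S hS))

/-- **Continuity of the minimising matrix.** -/
lemma continuousOn_mn {X : Set (Mt m)} (h : TG X) (hne : X.Nonempty) :
    ContinuousOn (mn X) {Q | Q.PosDef} := by
  intro Q₀ hQ₀
  obtain ⟨T₁, hT₁⟩ := id hne
  have hQ₀' : Q₀.PosDef := hQ₀
  -- local bound
  have hb : ContinuousAt (fun Q : Mt m => bd Q (ff Q T₁)) Q₀ := by
    unfold bd
    have htr : Continuous (fun T : Mt m => T.trace) := Continuous.matrix_trace continuous_id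
    have h1 : ContinuousAt (fun Q : Mt m => Q⁻¹.trace) Q₀ :=
      ContinuousAt.comp (f := fun T : Mt m => T⁻¹) (g := fun T : Mt m => T.trace)
        htr.continuousAt (continuousAt_inv (det_ne hQ₀'))
    have h2 : ContinuousAt (fun Q : Mt m => ff Q T₁) Q₀ :=
      ContinuousAt.comp (f := fun Q : Mt m => (Q, T₁)) (g := fun p : Mt m × Mt m => ff p.1 p.2)
        (continuousAt_ff hQ₀' (h.pos T₁ hT₁)) (by fun_prop)
    exact (htr.continuousAt.add h1).mul h2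
  set B := bd Q₀ (ff Q₀ T₁) + 1 with hB
  have hev : ∀ᶠ Q in 𝓝[{Q : Mt m | Q.PosDef}] Q₀, mn X Q ∈ KB X B := by
    have h1 : ∀ᶠ Q in 𝓝 Q₀, bd Q (ff Q T₁) < B := hb.eventually (gt_mem_nhds (by linarith))
    filter_upwards [self_mem_nhdsWithin, h1.filter_mono nhdsWithin_le_nhds] with Q hQ hQB
    obtain ⟨a, b⟩ := mn_spec h (show Q.PosDef from hQ) hne
    exact KB_mono hQB.le (mem_KB h hQ a (b T₁ hT₁))
  refine (h.isCompact_KB B).tendsto_nhds_of_unique_mapClusterPt hev ?_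
  intro S hS hcl
  rw [mapClusterPt_iff_ultrafilter] at hcl
  obtain ⟨U, hU, hUS⟩ := hcl
  obtain ⟨a, b⟩ := mn_spec h hQ₀' hne
  refine min_unique h hQ₀' hS.1 a (fun T hT => ?_) b
  have hUQ : Tendsto (fun Q : Mt m => Q) U (𝓝 Q₀) := hU.trans nhdsWithin_le_nhds
  have h1 : Tendsto (fun Q : Mt m => ff Q (mn X Q)) U (𝓝 (ff Q₀ S)) :=
    tendsto_ff hQ₀' (h.pos S hS.1) hUQ hUS
  have h2 : Tendsto (fun Q : Mt m => ff Q T) U (𝓝 (ff Q₀ T)) :=
    tendsto_ff hQ₀' (h.pos T hT) hUQ tendsto_const_nhds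
  refine le_of_tendsto_of_tendsto h1 h2 ?_
  have h3 : ∀ᶠ Q in (U : Filter (Mt m)), Q ∈ {Q : Mt m | Q.PosDef} := hU self_mem_nhdsWithin
  filter_upwards [h3] with Q hQ
  exact (mn_spec h (show Q.PosDef from hQ) hne).2 T hT

/-- the geometric mean in `X` -/
def gm (X : Set (Mt m)) (T₁ S : Mt m) : Mt m :=
  open Classical in if h : ∃ G ∈ X, G * T₁⁻¹ * G = S then h.choose else 1

lemma gm_spec {X : Set (Mt m)} (h : TG X) {T₁ S : Mt m} (hT₁ : T₁ ∈ X) (hS : S ∈ X) :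
    gm X T₁ S ∈ X ∧ gm X T₁ S * T₁⁻¹ * gm X T₁ S = S := by
  unfold gm
  rw [dif_pos (h.mid T₁ hT₁ S hS)]
  exact (h.mid T₁ hT₁ S hS).choose_spec

lemma entry_sq_le {G W S : Mt m} (hG : G.PosDef) (hW : W.PosDef) (h : G * W * G = S)
    (i j : Fin m) : (G i j) ^ 2 ≤ W⁻¹ i i * S j j := by
  have h1 := cs hW.inv (Pi.single i 1) (G *ᵥ Pi.single j 1)
  rw [nonsing_inv_nonsing_inv _ (det_unit hW), diag_eq] at h1
  have h2 : (Pi.single i 1 : Fin m → ℝ) ⬝ᵥ G *ᵥ Pi.single j 1 = G i j := by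
    rw [mulVec_single_one, single_one_dotProduct]
    rfl
  have h3 : (G *ᵥ Pi.single j 1) ⬝ᵥ W *ᵥ (G *ᵥ Pi.single j 1) = S j j := by
    rw [← diag_eq S j, ← h, ← mulVec_mulVec, ← mulVec_mulVec,
      dotProduct_mulVec (Pi.single j 1 : Fin m → ℝ) G, ← mulVec_transpose, symd hG]
  rw [h2, h3] at h1
  exact h1

lemma gm_mem_KB {X : Set (Mt m)} (h : TG X) {T₁ S : Mt m} (hT₁ : T₁ ∈ X) {B B₁ : ℝ}
    (hB : T₁ ∈ KB X B₁) (hS : S ∈ KB X B) : gm X T₁ S ∈ KB X (1 + |B₁| * |B|) := by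
  obtain ⟨a, b⟩ := gm_spec h hT₁ hS.1
  have hT := h.pos T₁ hT₁
  have hG := h.pos _ a
  have key : ∀ x y z : ℝ, x ^ 2 ≤ y * z → |y| ≤ |B₁| → |z| ≤ |B| → |x| ≤ 1 + |B₁| * |B| := by
    intro x y z h1 h2 h3
    have h4 : y * z ≤ |B₁| * |B| := by
      refine (le_abs_self _).trans ?_
      rw [abs_mul]
      exact mul_le_mul h2 h3 (abs_nonneg _) (abs_nonneg _)
    have h5 : 0 ≤ |B₁| * |B| := by positivity
    rw [← abs_of_nonneg (show (0:ℝ) ≤ 1 + |B₁| * |B| by linarith)]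
    apply sq_le_sq.1
    nlinarith
  refine ⟨a, fun i j => ⟨?_, ?_⟩⟩
  · have h1 := entry_sq_le hG hT.inv b i j
    rw [nonsing_inv_nonsing_inv _ (det_unit hT)] at h1
    exact key _ _ _ h1 ((hB.2 i i).1.trans (le_abs_self _)) ((hS.2 j j).1.trans (le_abs_self _))
  · have hb : (gm X T₁ S)⁻¹ * T₁ * (gm X T₁ S)⁻¹ = S⁻¹ := by
      conv_rhs => rw [← b]
      rw [Matrix.mul_inv_rev, Matrix.mul_inv_rev, nonsing_inv_nonsing_inv _ (det_unit hT),
        Matrix.mul_assoc]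
    have h1 := entry_sq_le hG.inv hT hb i j
    exact key _ _ _ h1 ((hB.2 i i).2.trans (le_abs_self _)) ((hS.2 j j).2.trans (le_abs_self _))

lemma exists_mem_KB {X : Set (Mt m)} {S : Mt m} (hS : S ∈ X) : ∃ B, S ∈ KB X B := by
  refine ⟨∑ i, ∑ j, (|S i j| + |S⁻¹ i j|), hS, fun i j => ?_⟩
  have h1 : |S i j| + |S⁻¹ i j| ≤ ∑ i, ∑ j, (|S i j| + |S⁻¹ i j|) := by
    refine le_trans ?_ (Finset.single_le_sum (f := fun i => ∑ j, (|S i j| + |S⁻¹ i j|))
      (fun i _ => Finset.sum_nonneg fun j _ => by positivity) (Finset.mem_univ i))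
    exact Finset.single_le_sum (f := fun j => (|S i j| + |S⁻¹ i j|))
      (fun j _ => by positivity) (Finset.mem_univ j)
  have h2 := abs_nonneg (S i j)
  have h3 := abs_nonneg (S⁻¹ i j)
  constructor <;> linarith

/-- **Continuity of the geometric mean.** -/
lemma continuousOn_gm {X : Set (Mt m)} (h : TG X) {T₁ : Mt m} (hT₁ : T₁ ∈ X) :
    ContinuousOn (gm X T₁) X := by
  intro S₀ hS₀
  obtain ⟨B₁, hB₁⟩ := exists_mem_KB hT₁
  obtain ⟨B₀, hB₀⟩ := exists_mem_KB hS₀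
  have hp₀ := h.pos S₀ hS₀
  -- nearby points are bounded
  have hev0 : ∀ᶠ S in 𝓝[X] S₀, S ∈ KB X (B₀ + 1) := by
    have h1 : ∀ i j : Fin m, ∀ᶠ S : Mt m in 𝓝 S₀, |S i j| < B₀ + 1 := fun i j => by
      have hc : Continuous (fun S : Mt m => |S i j|) := by fun_prop
      exact hc.continuousAt.eventually (gt_mem_nhds (by
        have := (hB₀.2 i j).1
        show |S₀ i j| < B₀ + 1
        linarith))
    have h2 : ∀ i j : Fin m, ∀ᶠ S : Mt m in 𝓝 S₀, |S⁻¹ i j| < B₀ + 1 := fun i j => by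
      have hc : Continuous (fun S : Mt m => |S i j|) := by fun_prop
      have hc' : ContinuousAt (fun S : Mt m => |S⁻¹ i j|) S₀ :=
        ContinuousAt.comp (f := fun S : Mt m => S⁻¹) (g := fun S : Mt m => |S i j|)
          hc.continuousAt (continuousAt_inv (det_ne hp₀))
      exact hc'.eventually (gt_mem_nhds (by
        have := (hB₀.2 i j).2
        show |S₀⁻¹ i j| < B₀ + 1
        linarith))
    have h3 := (eventually_all.2 fun i => eventually_all.2 fun j => h1 i j)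
    have h4 := (eventually_all.2 fun i => eventually_all.2 fun j => h2 i j)
    filter_upwards [self_mem_nhdsWithin, h3.filter_mono nhdsWithin_le_nhds,
      h4.filter_mono nhdsWithin_le_nhds] with S hS a b
    exact ⟨hS, fun i j => ⟨(a i j).le, (b i j).le⟩⟩
  have hev : ∀ᶠ S in 𝓝[X] S₀, gm X T₁ S ∈ KB X (1 + |B₁| * |B₀ + 1|) := by
    filter_upwards [hev0] with S hS
    exact gm_mem_KB h hT₁ hB₁ hS
  refine (h.isCompact_KB _).tendsto_nhds_of_unique_mapClusterPt hev ?_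
  intro G hG hcl
  rw [mapClusterPt_iff_ultrafilter] at hcl
  obtain ⟨U, hU, hUG⟩ := hcl
  obtain ⟨a, b⟩ := gm_spec h hT₁ hS₀
  refine mean_unique (h.pos G hG.1) (h.pos _ a) (h.pos T₁ hT₁).inv ?_
  rw [b]
  have hUS : Tendsto (fun S : Mt m => S) U (𝓝 S₀) := hU.trans nhdsWithin_le_nhds
  have h1 : Tendsto (fun S : Mt m => gm X T₁ S * T₁⁻¹ * gm X T₁ S) U (𝓝 (G * T₁⁻¹ * G)) :=
    (hUG.mul tendsto_const_nhds).mul hUG
  have h3 : ∀ᶠ S in (U : Filter (Mt m)), S ∈ X := hU self_mem_nhdsWithin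
  have h2 : Tendsto (fun S : Mt m => gm X T₁ S * T₁⁻¹ * gm X T₁ S) U (𝓝 S₀) := by
    refine hUS.congr' ?_
    filter_upwards [h3] with S hS
    exact ((gm_spec h hT₁ hS).2).symm
  exact tendsto_nhds_unique h1 h2

end Pool.Agent.Y520.Mat
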