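import Mathlib
import Pool.Agent.Y520.MinX

/-! Totally geodesic sets of positive definite matrices are retracts of Euclidean spaces. -/

open Matrix Set Filter Topology

noncomputable section

namespace Pool.Agent.Y520.Mat

variable {m : ℕ}

/-- index set for two matrices -/
abbrev Ix (m : ℕ) : Type := (Fin m × Fin m) ⊕ (Fin m × Fin m)

/-- numbering of the index set -/
def ex (m : ℕ) : Ix m ≃ Fin (Fintype.card (Ix m)) := Fintype.equivFin (Ix m)

/-- first matrix -/
def dec1 (p : Fin (Fintype.card (Ix m)) → ℝ) : Mt m :=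
  Matrix.of fun i j => p (ex m (Sum.inl (i, j)))

/-- second matrix -/
def dec2 (p : Fin (Fintype.card (Ix m)) → ℝ) : Mt m :=
  Matrix.of fun i j => p (ex m (Sum.inr (i, j)))

/-- encoding of two matrices -/
def enc (Z W : Mt m) : Fin (Fintype.card (Ix m)) → ℝ :=
  fun n => Sum.elim (fun q : Fin m × Fin m => Z q.1 q.2) (fun q : Fin m × Fin m => W q.1 q.2)
    ((ex m).symm n)

lemma dec1_enc (Z W : Mt m) : dec1 (enc Z W) = Z := by
  ext i j
  simp [dec1, enc]

lemma dec2_enc (Z W : Mt m) : dec2 (enc Z W) = W := by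
  ext i j
  simp [dec2, enc]

lemma continuous_dec1 : Continuous (dec1 (m := m)) :=
  continuous_pi fun _ => continuous_pi fun _ => continuous_apply _

lemma continuous_dec2 : Continuous (dec2 (m := m)) :=
  continuous_pi fun _ => continuous_pi fun _ => continuous_apply _

lemma continuous_enc : Continuous (fun q : Mt m × Mt m => enc q.1 q.2) := by
  refine continuous_pi fun n => ?_
  unfold enc
  rcases (ex m).symm n with ⟨i, j⟩ | ⟨i, j⟩
  · simp only [Sum.elim_inl]
    fun_prop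
  · simp only [Sum.elim_inr]
    fun_prop

/-- the defect -/
def nn (p : Fin (Fintype.card (Ix m)) → ℝ) : ℝ := ∑ i, ∑ j, ((dec1 p * dec2 p - 1) i j) ^ 2

lemma nn_nonneg (p : Fin (Fintype.card (Ix m)) → ℝ) : 0 ≤ nn p :=
  Finset.sum_nonneg fun _ _ => Finset.sum_nonneg fun _ _ => sq_nonneg _

lemma nn_zero {p : Fin (Fintype.card (Ix m)) → ℝ} (h : nn p = 0) : dec1 p * dec2 p = 1 := by
  rw [← sub_eq_zero]
  ext i j
  have h1 := (Finset.sum_eq_zero_iff_of_nonneg
    (fun i _ => Finset.sum_nonneg fun _ _ => sq_nonneg _)).1 h i (Finset.mem_univ i)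
  have h2 := (Finset.sum_eq_zero_iff_of_nonneg (fun _ _ => sq_nonneg _)).1 h1 j (Finset.mem_univ j)
  exact pow_eq_zero_iff two_ne_zero |>.1 h2

lemma continuous_nn : Continuous (nn (m := m)) := by
  unfold nn
  have h : Continuous (fun p : Fin (Fintype.card (Ix m)) → ℝ => dec1 p * dec2 p - 1) :=
    (continuous_dec1.mul continuous_dec2).sub continuous_const
  refine continuous_finsetSum _ fun i _ => continuous_finsetSum _ fun j _ => ?_
  exact (((continuous_apply j).comp (continuous_apply i)).comp h).pow 2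

/-- the positive definite matrix attached to a parameter -/
def yy (T₁ : Mt m) (p : Fin (Fintype.card (Ix m)) → ℝ) : Mt m :=
  dec1 p * T₁⁻¹ * (dec1 p)ᵀ + nn p • (1 : Mt m)

lemma posDef_yy {T₁ : Mt m} (hT : T₁.PosDef) (p : Fin (Fintype.card (Ix m)) → ℝ) :
    (yy T₁ p).PosDef := by
  rcases (nn_nonneg p).eq_or_lt with h | h
  · have h1 := nn_zero h.symm
    unfold yy
    rw [← h, zero_smul, add_zero]
    exact pd_conj hT.inv (IsUnit.of_mul_eq_one _ h1)
  · unfold yy
    have h1 : (nn p • (1 : Mt m)).PosDef := PosDef.one.smul h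
    exact PosDef.posSemidef_add (psd_conj hT.inv.posSemidef (dec1 p)) h1

lemma continuous_yy (T₁ : Mt m) : Continuous (yy T₁) := by
  unfold yy
  exact ((continuous_dec1.mul continuous_const).mul continuous_dec1.matrix_transpose).add
    (continuous_nn.smul continuous_const)

/-- **Totally geodesic sets are retracts of Euclidean spaces.** -/
theorem TG.exists_retract {X : Set (Mt m)} (h : TG X) (hne : X.Nonempty) :
    ∃ (N : ℕ) (r : (Fin N → ℝ) → Mt m) (s : Mt m → Fin N → ℝ), Continuous r ∧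
      (∀ p, r p ∈ X) ∧ ContinuousOn s X ∧ ∀ T ∈ X, r (s T) = T := by
  obtain ⟨T₁, hT₁⟩ := id hne
  refine ⟨Fintype.card (Ix m), fun p => mn X (yy T₁ p)⁻¹,
    fun T => enc (gm X T₁ T) (gm X T₁ T)⁻¹, ?_, ?_, ?_, ?_⟩
  · rw [continuous_iff_continuousAt]
    intro p
    have hp := posDef_yy (h.pos T₁ hT₁) p
    have h1 : ContinuousWithinAt (mn X) {Q | Q.PosDef} (yy T₁ p)⁻¹ :=
      continuousOn_mn h hne _ hp.inv
    have h2 : Tendsto (fun p => (yy T₁ p)⁻¹) (𝓝 p) (𝓝 (yy T₁ p)⁻¹) :=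
      tendsto_inv hp (continuous_yy T₁).continuousAt.tendsto
    have h3 : Tendsto (fun p => (yy T₁ p)⁻¹) (𝓝 p) (𝓝[{Q | Q.PosDef}] (yy T₁ p)⁻¹) :=
      tendsto_nhdsWithin_iff.2 ⟨h2, Eventually.of_forall fun q =>
        (posDef_yy (h.pos T₁ hT₁) q).inv⟩
    exact Tendsto.comp h1.tendsto h3
  · intro p
    exact (mn_spec h (posDef_yy (h.pos T₁ hT₁) p).inv hne).1
  · intro T hT
    obtain ⟨a, b⟩ := gm_spec h hT₁ hT
    have h1 : Tendsto (gm X T₁) (𝓝[X] T) (𝓝 (gm X T₁ T)) := continuousOn_gm h hT₁ T hT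
    have h2 := tendsto_inv (h.pos _ a) h1
    exact Tendsto.comp (g := fun q : Mt m × Mt m => enc q.1 q.2)
      (continuous_enc.continuousAt (x := (gm X T₁ T, (gm X T₁ T)⁻¹))).tendsto (h1.prodMk_nhds h2)
  · intro T hT
    obtain ⟨a, b⟩ := gm_spec h hT₁ hT
    have hG := h.pos _ a
    have e : yy T₁ (enc (gm X T₁ T) (gm X T₁ T)⁻¹) = T := by
      have h0 : nn (enc (gm X T₁ T) (gm X T₁ T)⁻¹) = 0 := by
        unfold nn
        rw [dec1_enc, dec2_enc, mul_inv hG, sub_self]
        simp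
      unfold yy
      rw [h0, zero_smul, add_zero, dec1_enc, symd hG, b]
    show mn X (yy T₁ (enc (gm X T₁ T) (gm X T₁ T)⁻¹))⁻¹ = T
    rw [e]
    exact mn_inv h hT

end Pool.Agent.Y520.Mat
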