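import Mathlib
import Pool.Agent.Y520.Retr
import Pool.Agent.Y520.Push
import Pool.Agent.Y520.Link2
import Pool.Agent.H826R2.Wein.Rank2
import Pool.Agent.H826R2.Wein.NFGeo

/-! Critical points of integral contact Hamiltonians from stable momenta. -/

open scoped Topology ContDiff Manifold
open Set Metric Bundle Filter Matrix Pool.Agent.Helper186

noncomputable section

namespace Pool.Agent.Y520

open Pool.Agent.H826R2.Wein Pool.Agent.Y520.Mat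

set_option linter.unusedSectionVars false

universe u

variable {E : Type u} [NormedAddCommGroup E] [NormedSpace ℝ E] [FiniteDimensional ℝ E]
  {P : Type*} [TopologicalSpace P] [ChartedSpace E P] [IsManifold 𝓘(ℝ, E) ∞ P]
  {β : (x : P) → TangentSpace 𝓘(ℝ, E) x →L[ℝ] ℝ} {m : ℕ}
  (A : TAct β m) {n : ℕ} (ι : Imm (E := E) P n) {Γ : Type*} [Group Γ] [MulAction Γ P]

/-- the momentum -/
def mom (x : P) : Fin m → ℝ := fun i => A.H (Pi.single i 1) x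

lemma H_eq_mom (κ : Fin m → ℝ) (x : P) : A.H κ x = mom A x ⬝ᵥ κ := by
  rw [A.H_expand]
  simp only [dotProduct, mom]
  exact Finset.sum_congr rfl fun i _ => mul_comm _ _

/-- the Gram matrix of the energy -/
def Qm (x : P) : Mt m := Matrix.of fun i j =>
  ι.G2 (A.H (Pi.single i 1)) (A.H (Pi.single j 1)) x +
    A.H (Pi.single i 1) x * A.H (Pi.single j 1) x

lemma Qm_quad (hβ : SmoothForm β) (κ : Fin m → ℝ) (x : P) :
    κ ⬝ᵥ Qm A ι x *ᵥ κ = A.Q ι κ x := by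
  have h1 := A.G_H_expand ι hβ x κ
  have h2 := A.H_expand x κ
  unfold TAct.Q
  rw [h1, h2, sq, Finset.sum_mul_sum, ← Finset.sum_add_distrib]
  simp only [dotProduct, mulVec, Qm, Matrix.of_apply, Finset.mul_sum]
  refine Finset.sum_congr rfl fun i _ => ?_
  rw [← Finset.sum_add_distrib]
  refine Finset.sum_congr rfl fun j _ => ?_
  ring

lemma Qm_sym (x : P) : (Qm A ι x)ᵀ = Qm A ι x := by
  ext i j
  simp only [Qm, transpose_apply, Matrix.of_apply]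
  rw [G2_comm, mul_comm (A.H (Pi.single j 1) x)]

lemma continuous_Qm (hβ : SmoothForm β) : Continuous (Qm A ι) := by
  refine continuous_pi fun i => continuous_pi fun j => ?_
  have h1 : Continuous (ι.G2 (A.H (Pi.single i 1)) (A.H (Pi.single j 1))) :=
    (ι.smooth_G2 (A.smooth_H hβ _) (A.smooth_H hβ _)).continuous
  exact h1.add ((A.smooth_H hβ _).continuous.mul (A.smooth_H hβ _).continuous)

lemma posDef_Qm (hc : IsContact β) {R : (x : P) → TangentSpace 𝓘(ℝ, E) x}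
    (hR : IsReeb β R) (x : P) : (Qm A ι x).PosDef := by
  refine PosDef.of_dotProduct_mulVec_pos ?_ fun κ hκ => ?_
  · show (Qm A ι x)ᴴ = Qm A ι x
    rw [conjTranspose_eq_transpose_of_trivial, Qm_sym]
  · rw [star_trivial, Qm_quad A ι hc.smooth]
    exact A.Q_pos ι hc hR hκ x

/-- symmetric matrices are determined by their quadratic forms -/
lemma eq_of_quad {S T : Mt m} (hS : Sᵀ = S) (hT : Tᵀ = T)
    (h : ∀ u : Fin m → ℝ, u ⬝ᵥ S *ᵥ u = u ⬝ᵥ T *ᵥ u) : S = T := by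
  have e : ∀ (M : Mt m) (i j : Fin m),
      (Pi.single i 1 : Fin m → ℝ) ⬝ᵥ M *ᵥ (Pi.single j 1) = M i j := by
    intro M i j
    rw [mulVec_single_one, single_one_dotProduct]
    rfl
  have key : ∀ (M : Mt m), Mᵀ = M → ∀ i j : Fin m,
      (Pi.single i 1 + Pi.single j 1 : Fin m → ℝ) ⬝ᵥ M *ᵥ (Pi.single i 1 + Pi.single j 1) =
      M i i + M j j + 2 * M i j := by
    intro M hM i j
    have hs : M j i = M i j := congrFun (congrFun hM i) j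
    rw [mulVec_add, dotProduct_add, add_dotProduct, add_dotProduct, e, e, e, e, hs]
    ring
  ext i j
  have h1 := h (Pi.single i 1 + Pi.single j 1)
  have h2 := h (Pi.single i 1)
  have h3 := h (Pi.single j 1)
  rw [key S hS, key T hT] at h1
  rw [e, e] at h2 h3
  linarith

/-- the real matrix of an integral one -/
def Br (B : Matrix (Fin m) (Fin m) ℤ) : Mt m := B.map (Int.cast : ℤ → ℝ)

lemma Br_mul (B C : Matrix (Fin m) (Fin m) ℤ) : Br (B * C) = Br B * Br C :=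
  Matrix.map_mul (f := Int.castRingHom ℝ)

lemma Br_one : Br (1 : Matrix (Fin m) (Fin m) ℤ) = 1 :=
  Matrix.map_one (Int.cast : ℤ → ℝ) Int.cast_zero Int.cast_one

lemma Br_inv (B : Γ →* Matrix (Fin m) (Fin m) ℤ) (γ : Γ) : Br (B γ) * Br (B γ⁻¹) = 1 := by
  rw [← Br_mul, ← map_mul, mul_inv_cancel, map_one, Br_one]

lemma Br_inv' (B : Γ →* Matrix (Fin m) (Fin m) ℤ) (γ : Γ) : (Br (B γ))⁻¹ = Br (B γ⁻¹) :=
  inv_eq_right_inv (Br_inv B γ)

lemma Br_det (B : Γ →* Matrix (Fin m) (Fin m) ℤ) (γ : Γ) : IsUnit (Br (B γ)).det := by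
  rw [← isUnit_iff_isUnit_det]
  exact IsUnit.of_mul_eq_one _ (Br_inv B γ)

/-- integral matrices with bounded entries -/
lemma finite_bounded (b : ℝ) :
    {C : Matrix (Fin m) (Fin m) ℤ | ∀ i j, |(C i j : ℝ)| ≤ b}.Finite := by
  obtain ⟨N, hN⟩ := exists_nat_ge b
  have h1 : (Set.pi univ fun _ : Fin m => Set.pi univ fun _ : Fin m =>
      (Icc (-(N:ℤ)) N : Set ℤ)).Finite :=
    Set.Finite.pi fun _ => Set.Finite.pi fun _ => Set.finite_Icc _ _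
  refine h1.subset ?_
  intro C hC i _ j _
  have h2 := abs_le.1 ((hC i j).trans hN)
  constructor
  · exact_mod_cast h2.1
  · exact_mod_cast h2.2

lemma entry_sq_le' {B T : Mt m} (hT : T.PosDef) (i j : Fin m) :
    (B i j) ^ 2 ≤ T⁻¹ j j * (B * T * Bᵀ) i i := by
  have h1 := cs hT.inv (Pi.single j 1) (Bᵀ *ᵥ Pi.single i 1)
  rw [nonsing_inv_nonsing_inv _ (det_unit hT), diag_eq] at h1
  have h2 : (Pi.single j 1 : Fin m → ℝ) ⬝ᵥ Bᵀ *ᵥ Pi.single i 1 = B i j := by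
    rw [mulVec_single_one, single_one_dotProduct]
    rfl
  have h3 : (Bᵀ *ᵥ Pi.single i 1) ⬝ᵥ T *ᵥ (Bᵀ *ᵥ Pi.single i 1) = (B * T * Bᵀ) i i := by
    rw [← diag_eq (B * T * Bᵀ) i, ← mulVec_mulVec, ← mulVec_mulVec,
      dotProduct_mulVec (Pi.single i 1 : Fin m → ℝ) B, ← mulVec_transpose]
  rw [h2, h3] at h1
  exact h1

lemma conj_diag_nonneg {T : Mt m} (hT : T.PosDef) (B : Mt m) (j : Fin m) :
    0 ≤ (Bᵀ * T * Bᵀᵀ) j j := (psd_conj hT.posSemidef Bᵀ).diag_nonneg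

/-- The stability condition. -/
def Stab (X : Set (Mt m)) (a : Fin m → ℝ) : Prop :=
  ∀ C : ℝ, ∃ b : ℝ, ∀ S ∈ X, a ⬝ᵥ S *ᵥ a ≤ C → S ∈ KB X b

section main

variable {ι}

/-- finitely many monodromy matrices -/
lemma crit_of_finite [T2Space P] [SigmaCompactSpace P] [Nonempty P] (hc : IsContact β)
    {R : (x : P) → TangentSpace 𝓘(ℝ, E) x} (hR : IsReeb β R) (𝒟 : Deck ι Γ) (hN : A.Norm Γ)
    (hm : 0 < m) (B : Γ →* Matrix (Fin m) (Fin m) ℤ)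
    (hB : ∀ (γ : Γ) (κ : Fin m → ℝ) (x : P), A.H (Br (B γ) *ᵥ κ) (γ • x) = A.H κ x)
    (hfin : (range B).Finite) :
    ∃ k : Fin m → ℤ, k ≠ 0 ∧ ∃ x, dForm 𝓘(ℝ, E) (A.H (TAct.rv k)) x = 0 := by
  have hk : (fun _ => 1 : Fin m → ℤ) ≠ 0 := by
    intro h
    have := congrFun h ⟨0, hm⟩
    simp at this
  refine A.exists_crit_of_finite hc hR 𝒟 hN hk
    (S := (fun C : Matrix (Fin m) (Fin m) ℤ => C *ᵥ (fun _ => 1)) '' range B)
    (hfin.image _) (fun γ => ⟨B γ *ᵥ (fun _ => 1), ⟨B γ, ⟨γ, rfl⟩, rfl⟩, fun x => ?_⟩)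
  have h1 := hB γ (TAct.rv (fun _ => 1)) x
  rw [← h1]
  congr 1
  ext i
  simp [TAct.rv, mulVec, dotProduct, Br]

/-- properness of the orbits -/
lemma small_of_stab [T2Space P] [SigmaCompactSpace P] (hc : IsContact β)
    {R : (x : P) → TangentSpace 𝓘(ℝ, E) x} (hR : IsReeb β R) (𝒟 : Deck ι Γ)
    (B : Γ →* Matrix (Fin m) (Fin m) ℤ)
    (hB : ∀ (γ : Γ) (κ : Fin m → ℝ) (x : P), A.H (Br (B γ) *ᵥ κ) (γ • x) = A.H κ x)
    {X : Set (Mt m)} (hX : TG X) (hinv : ∀ γ, ∀ S ∈ X, Br (B γ) * S * (Br (B γ))ᵀ ∈ X)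
    {a : Fin m → ℝ} (ha : Stab X a) {T : Mt m} (hT : T ∈ X) (C : ℝ) :
    SmallRel (A.ker Γ) {y | A.Q ι (T *ᵥ a) y ≤ C} := by
  have hTp := hX.pos T hT
  obtain ⟨μ, hμ, hQlo⟩ := A.exists_Q_bound ι hc hR 𝒟.compact
  -- a bound for the quadratic form of `T⁻¹`
  obtain ⟨c₁, hc₁0, hc₁⟩ : ∃ c₁ : ℝ, 0 ≤ c₁ ∧ ∀ u : Fin m → ℝ, u ⬝ᵥ T⁻¹ *ᵥ u ≤ c₁ * ‖u‖ ^ 2 := by
    refine ⟨∑ i, ∑ j, |T⁻¹ i j|, Finset.sum_nonneg fun i _ => Finset.sum_nonneg fun j _ =>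
      abs_nonneg _, fun u => ?_⟩
    simp only [dotProduct, mulVec, Finset.mul_sum, Finset.sum_mul]
    refine Finset.sum_le_sum fun i _ => Finset.sum_le_sum fun j _ => ?_
    have h1 := norm_le_pi_norm u i
    have h2 := norm_le_pi_norm u j
    rw [Real.norm_eq_abs] at h1 h2
    calc u i * (T⁻¹ i j * u j) ≤ |u i * (T⁻¹ i j * u j)| := le_abs_self _
      _ = |T⁻¹ i j| * (|u i| * |u j|) := by rw [abs_mul, abs_mul]; ring
      _ ≤ |T⁻¹ i j| * (‖u‖ * ‖u‖) := by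
          apply mul_le_mul_of_nonneg_left _ (abs_nonneg _)
          exact mul_le_mul h1 h2 (abs_nonneg _) (norm_nonneg _)
      _ = |T⁻¹ i j| * ‖u‖ ^ 2 := by ring
  obtain ⟨b, hb⟩ := ha (c₁ * (C / μ))
  -- the relevant matrices are finite in number
  have hfin : {M : Matrix (Fin m) (Fin m) ℤ | ∃ γ : Γ, B γ = M ∧
      μ * ‖Br (B γ) *ᵥ (T *ᵥ a)‖ ^ 2 ≤ C}.Finite := by
    -- bound of the entries
    obtain ⟨bT, hbT⟩ := exists_mem_KB hT
    set tb : ℝ := ∑ i, ∑ j, |T⁻¹ i j| with htb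
    have htb0 : 0 ≤ tb := Finset.sum_nonneg fun i _ => Finset.sum_nonneg fun j _ => abs_nonneg _
    -- `S_γ⁻¹` is bounded
    have key : ∃ b₂ : ℝ, 0 ≤ b₂ ∧ ∀ γ : Γ, μ * ‖Br (B γ) *ᵥ (T *ᵥ a)‖ ^ 2 ≤ C →
        ∀ i : Fin m, ((Br (B γ))ᵀ * T⁻¹ * Br (B γ)) i i ≤ b₂ := by
      refine ⟨∑ i : Fin m, ∑ j, ∑ k, |T⁻¹ i j| * (|b| * |T⁻¹ k i|), by positivity,
        fun γ hγ i => ?_⟩
      -- the matrix `S = B⁻¹ T B⁻ᵀ`
      have hS := hinv γ⁻¹ T hT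
      set Bi := Br (B γ⁻¹) with hBi
      set Bg := Br (B γ) with hBg
      have hBB : Bg * Bi = 1 := Br_inv B γ
      have hBB' : Bi * Bg = 1 := by
        have := Br_inv B γ⁻¹
        rwa [inv_inv] at this
      have hSi : (Bi * T * Biᵀ)⁻¹ = Bgᵀ * T⁻¹ * Bg := by
        apply inv_eq_right_inv
        have e : Bi * T * Biᵀ * (Bgᵀ * T⁻¹ * Bg) = Bi * T * (Bg * Bi)ᵀ * T⁻¹ * Bg := by
          rw [transpose_mul]
          noncomm_ring
        rw [e, hBB, transpose_one, Matrix.mul_one, Matrix.mul_assoc Bi, mul_inv hTp,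
          Matrix.mul_one, hBB']
      have hRX := hX.refl _ hS T hT
      rw [hSi] at hRX
      have hval : a ⬝ᵥ (T * (Bgᵀ * T⁻¹ * Bg) * T) *ᵥ a ≤ c₁ * (C / μ) := by
        have e : a ⬝ᵥ (T * (Bgᵀ * T⁻¹ * Bg) * T) *ᵥ a =
            (Bg *ᵥ (T *ᵥ a)) ⬝ᵥ T⁻¹ *ᵥ (Bg *ᵥ (T *ᵥ a)) := by
          rw [← mulVec_mulVec, ← mulVec_mulVec, ← mulVec_mulVec, ← mulVec_mulVec,
            dotProduct_mulVec a T, ← mulVec_transpose, symd hTp,
            dotProduct_mulVec (T *ᵥ a) Bgᵀ, vecMul_transpose]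
        rw [e]
        refine (hc₁ _).trans (mul_le_mul_of_nonneg_left ?_ hc₁0)
        rw [le_div_iff₀ hμ, mul_comm]
        exact hγ
      have hKB := hb _ hRX hval
      -- conjugate back
      have e2 : Bgᵀ * T⁻¹ * Bg = T⁻¹ * (T * (Bgᵀ * T⁻¹ * Bg) * T) * T⁻¹ := by
        have : T⁻¹ * (T * (Bgᵀ * T⁻¹ * Bg) * T) * T⁻¹ =
          (T⁻¹ * T) * (Bgᵀ * T⁻¹ * Bg) * (T * T⁻¹) := by noncomm_ring
        rw [this, mul_inv hTp, inv_mul hTp, Matrix.mul_one, Matrix.one_mul]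
      rw [e2]
      set Y := T * (Bgᵀ * T⁻¹ * Bg) * T with hY
      have e3 : (T⁻¹ * Y * T⁻¹) i i = ∑ k, ∑ j, T⁻¹ i j * Y j k * T⁻¹ k i := by
        simp only [mul_apply, Finset.sum_mul]
      rw [e3]
      have hb0 : ∀ j k, |Y j k| ≤ |b| := fun j k => ((hKB.2 j k).1).trans (le_abs_self b)
      calc ∑ k, ∑ j, T⁻¹ i j * Y j k * T⁻¹ k i
          ≤ ∑ k, ∑ j, |T⁻¹ i j| * (|b| * |T⁻¹ k i|) := by
            refine Finset.sum_le_sum fun k _ => Finset.sum_le_sum fun j _ => ?_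
            refine (le_abs_self _).trans ?_
            rw [abs_mul, abs_mul, mul_assoc]
            exact mul_le_mul_of_nonneg_left (mul_le_mul_of_nonneg_right (hb0 j k)
              (abs_nonneg _)) (abs_nonneg _)
        _ = ∑ j, ∑ k, |T⁻¹ i j| * (|b| * |T⁻¹ k i|) := Finset.sum_comm
        _ ≤ _ := Finset.single_le_sum
            (f := fun i => ∑ j, ∑ k, |T⁻¹ i j| * (|b| * |T⁻¹ k i|))
            (fun i _ => by positivity) (Finset.mem_univ i)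
    obtain ⟨b₂, hb₂0, hb₂⟩ := key
    refine (finite_bounded (1 + |bT| * b₂)).subset ?_
    rintro M ⟨γ, rfl, hγ⟩ i j
    have h1 := entry_sq_le' (B := (Br (B γ))ᵀ) hTp.inv j i
    rw [nonsing_inv_nonsing_inv _ (det_unit hTp), transpose_transpose] at h1
    have h2 := hb₂ γ hγ j
    have h3 := (hbT.2 i i).1
    have h4 : T i i ≤ |bT| := (le_abs_self _).trans (h3.trans (le_abs_self _))
    have h5 : 0 ≤ T i i := hTp.posSemidef.diag_nonneg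
    have h6 : ((Br (B γ))ᵀ j i) ^ 2 ≤ |bT| * b₂ :=
      h1.trans (mul_le_mul h4 h2 ((conj_diag_nonneg hTp.inv (Br (B γ)) j)) (abs_nonneg _))
    have h7 : (Br (B γ))ᵀ j i = ((B γ i j : ℤ) : ℝ) := rfl
    rw [h7] at h6
    have h8 : 0 ≤ |bT| * b₂ := by positivity
    rw [← abs_of_nonneg (show (0:ℝ) ≤ 1 + |bT| * b₂ by linarith)]
    apply sq_le_sq.1
    nlinarith
  -- representatives
  choose! g hg using fun (M : Matrix (Fin m) (Fin m) ℤ) (hM : M ∈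
    {M : Matrix (Fin m) (Fin m) ℤ | ∃ γ : Γ, B γ = M ∧
      μ * ‖Br (B γ) *ᵥ (T *ᵥ a)‖ ^ 2 ≤ C}) => hM
  refine ⟨⋃ M ∈ {M : Matrix (Fin m) (Fin m) ℤ | ∃ γ : Γ, B γ = M ∧
      μ * ‖Br (B γ) *ᵥ (T *ᵥ a)‖ ^ 2 ≤ C}, (fun x : P => (g M)⁻¹ • x) '' 𝒟.D,
      hfin.isCompact_biUnion fun M _ => 𝒟.compact.image (𝒟.smooth _).continuous, ?_⟩
  intro y hy
  obtain ⟨γ, hγ⟩ := 𝒟.cover y
  have hmem : B γ ∈ {M : Matrix (Fin m) (Fin m) ℤ | ∃ γ : Γ, B γ = M ∧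
      μ * ‖Br (B γ) *ᵥ (T *ᵥ a)‖ ^ 2 ≤ C} := by
    refine ⟨γ, rfl, (hQlo _ hγ _).trans ?_⟩
    have h1 := A.Q_equiv hc 𝒟 (hB γ) (T *ᵥ a) y
    exact (le_of_eq h1).trans hy
  obtain ⟨h1, -⟩ := hg _ hmem
  refine ⟨(g (B γ))⁻¹ * γ, ?_, ?_⟩
  · intro k x
    rw [mul_smul]
    have h2 := hB (g (B γ)) (TAct.rv k) ((g (B γ))⁻¹ • γ • x)
    rw [smul_inv_smul, h1, hB] at h2
    exact h2.symm
  · simp only [mem_iUnion]
    refine ⟨B γ, hmem, γ • y, hγ, ?_⟩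
    rw [mul_smul]

end main

end Pool.Agent.Y520
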