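import Mathlib
import Pool.Agent.Y520.Stable

/-! Critical points of integral contact Hamiltonians from stable momenta: the linking argument. -/

open scoped Topology ContDiff Manifold
open Set Metric Bundle Filter Matrix Pool.Agent.Helper186

noncomputable section

namespace Pool.Agent.Y520

open Pool.Agent.H826R2.Wein Pool.Agent.Y520.Mat

set_option linter.unusedSectionVars false

universe u

variable {E : Type u} [NormedAddCommGroup E] [NormedSpace ℝ E] [FiniteDimensional ℝ E]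
  {P : Type*} [TopologicalSpace P] [ChartedSpace E P] [IsManifold 𝓘(ℝ, E) ∞ P]
  {β : (x : P) → TangentSpace 𝓘(ℝ, E) x →L[ℝ] ℝ} {m : ℕ}
  (A : TAct β m) {n : ℕ} {ι : Imm (E := E) P n} {Γ : Type*} [Group Γ] [MulAction Γ P]

/-- the value of the minimum is bounded -/
lemma exists_min_bound (hc : IsContact β)
    {R : (x : P) → TangentSpace 𝓘(ℝ, E) x} (hR : IsReeb β R) (𝒟 : Deck ι Γ)
    (B : Γ →* Matrix (Fin m) (Fin m) ℤ)
    (hB : ∀ (γ : Γ) (κ : Fin m → ℝ) (x : P), A.H (Br (B γ) *ᵥ κ) (γ • x) = A.H κ x)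
    {X : Set (Mt m)} (hX : TG X) (hinv : ∀ γ, ∀ S ∈ X, Br (B γ) * S * (Br (B γ))ᵀ ∈ X)
    {T₁ : Mt m} (hT₁ : T₁ ∈ X) :
    ∃ C : ℝ, ∀ y, ff (Qm A ι y) (mn X (Qm A ι y)) ≤ C := by
  have hcont : Continuous (fun y => ff (Qm A ι y) T₁) := by
    rw [continuous_iff_continuousAt]
    intro y
    exact tendsto_ff (posDef_Qm A ι hc hR y) (hX.pos T₁ hT₁)
      (continuous_Qm A ι hc.smooth).continuousAt.tendsto tendsto_const_nhds
  obtain ⟨C, hC⟩ := (𝒟.compact.image hcont).bddAbove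
  refine ⟨C, fun y => ?_⟩
  obtain ⟨γ, hγ⟩ := 𝒟.cover y
  have hS := hinv γ⁻¹ T₁ hT₁
  refine ((mn_spec hX (posDef_Qm A ι hc hR y) ⟨T₁, hT₁⟩).2 _ hS).trans ?_
  -- the Gram matrix at `y`
  have e1 : Qm A ι y = (Br (B γ))ᵀ * Qm A ι (γ • y) * Br (B γ) := by
    apply eq_of_quad (Qm_sym A ι y)
    · rw [transpose_mul, transpose_mul, transpose_transpose, Qm_sym, Matrix.mul_assoc]
    · intro u
      rw [Qm_quad A ι hc.smooth, ← A.Q_equiv hc 𝒟 (hB γ) u y, ← Qm_quad A ι hc.smooth,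
        ← mulVec_mulVec, ← mulVec_mulVec, dotProduct_mulVec u (Br (B γ))ᵀ, vecMul_transpose]
      rfl
  have e2 : (Br (B γ⁻¹))⁻¹ = Br (B γ) := by
    rw [Br_inv', inv_inv]
  have e3 := ff_conj (Q := Qm A ι (γ • y)) (S := T₁) (Br_det B γ⁻¹)
  rw [e2, ← e1] at e3
  rw [e3]
  exact hC ⟨γ • y, hγ, rfl⟩

/-- **Critical points from stable momenta.** -/
theorem exists_crit_stable [T2Space P] [SigmaCompactSpace P] (hc : IsContact β)
    {R : (x : P) → TangentSpace 𝓘(ℝ, E) x} (hR : IsReeb β R) (𝒟 : Deck ι Γ) (hN : A.Norm Γ)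
    (hm : 0 < m) (B : Γ →* Matrix (Fin m) (Fin m) ℤ)
    (hB : ∀ (γ : Γ) (κ : Fin m → ℝ) (x : P), A.H (Br (B γ) *ᵥ κ) (γ • x) = A.H κ x)
    {X : Set (Mt m)} (hX : TG X) (hne : X.Nonempty)
    (hinv : ∀ γ, ∀ S ∈ X, Br (B γ) * S * (Br (B γ))ᵀ ∈ X)
    (x₀ : P) (hst : Stab X (mom A x₀)) :
    ∃ k : Fin m → ℤ, k ≠ 0 ∧ ∃ x, dForm 𝓘(ℝ, E) (A.H (TAct.rv k)) x = 0 := by
  by_contra hno
  have hno' := hno
  push Not at hno
  have hP : Nonempty P := ⟨x₀⟩
  obtain ⟨T₁, hT₁⟩ := id hne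
  set a : Fin m → ℝ := mom A x₀ with ha
  by_cases ha0 : a = 0
  · -- finite monodromy
    obtain ⟨b, hb⟩ := hst 0
    apply hno'
    refine crit_of_finite A hc hR 𝒟 hN hm B hB ?_
    obtain ⟨bT, hbT⟩ := exists_mem_KB hT₁
    refine (finite_bounded (1 + |bT| * |b|)).subset ?_
    rintro _ ⟨γ, rfl⟩ i j
    have h1 := entry_sq_le' (B := Br (B γ)) (hX.pos T₁ hT₁) i j
    have h2 := hb _ (hinv γ T₁ hT₁) (by rw [ha0]; simp)
    have h3 : ((Br (B γ)) i j) ^ 2 ≤ |bT| * |b| := by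
      refine h1.trans (mul_le_mul ?_ ?_ ?_ (abs_nonneg _))
      · exact (le_abs_self _).trans ((hbT.2 j j).2.trans (le_abs_self _))
      · exact (le_abs_self _).trans ((h2.2 i i).1.trans (le_abs_self _))
      · exact (hX.pos _ (hinv γ T₁ hT₁)).posSemidef.diag_nonneg
    have h7 : (Br (B γ)) i j = ((B γ i j : ℤ) : ℝ) := rfl
    rw [h7] at h3
    have h8 : 0 ≤ |bT| * |b| := by positivity
    rw [← abs_of_nonneg (show (0:ℝ) ≤ 1 + |bT| * |b| by linarith)]
    apply sq_le_sq.1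
    nlinarith
  obtain ⟨N, r, s, hr, hrX, hs, hrs⟩ := hX.exists_retract hne
  have hsr : Continuous (fun p => s (r p)) := hs.comp_continuous hr hrX
  have hcr : Continuous (fun p => r p *ᵥ a) := hr.matrix_mulVec continuous_const
  set Φ : (Fin N → ℝ) × P → ℝ := fun q => A.H (r q.1 *ᵥ a) q.2 + ‖q.1 - s (r q.1)‖ with hΦdef
  have hΦ : Continuous Φ := by
    have h1 : Continuous (fun q : (Fin N → ℝ) × P => A.H (r q.1 *ᵥ a) q.2) :=
      (A.continuous_H hc.smooth).comp (continuous_snd.prodMk (hcr.comp continuous_fst))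
    exact h1.add ((continuous_fst.sub (hsr.comp continuous_fst)).norm)
  -- the selection
  obtain ⟨C, hC⟩ := exists_min_bound A hc hR 𝒟 B hB hX hinv hT₁
  have hLc1 : Continuous (fun y => mn X (Qm A ι y)) :=
    (continuousOn_mn hX hne).comp_continuous (continuous_Qm A ι hc.smooth)
      (fun y => posDef_Qm A ι hc hR y)
  have hLX : ∀ y, mn X (Qm A ι y) ∈ X := fun y => (mn_spec hX (posDef_Qm A ι hc hR y) hne).1
  have hLc2 : Continuous (fun y => gm X T₁ (mn X (Qm A ι y))) :=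
    (continuousOn_gm hX hT₁).comp_continuous hLc1 hLX
  have hGX : ∀ y, gm X T₁ (mn X (Qm A ι y)) ∈ X := fun y => (gm_spec hX hT₁ (hLX y)).1
  have hLc3 : Continuous (fun y => s (gm X T₁ (mn X (Qm A ι y)))) :=
    hs.comp_continuous hLc2 hGX
  refine Link.linking (Φ := Φ) hΦ ?_ x₀ ?_ hLc3
    (c := 1 + (a ⬝ᵥ T₁ *ᵥ a) * C) ?_
  · -- pushing
    intro p d d' hdd K hK
    set v := r p *ᵥ a with hv
    set b := ‖p - s (r p)‖ with hb
    have hrp := hX.pos _ (hrX p)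
    have hv0 : v ≠ 0 := by
      intro h0
      have h1 := hrp.dotProduct_mulVec_pos ha0
      rw [star_trivial, ← hv, h0, dotProduct_zero] at h1
      exact lt_irrefl _ h1
    obtain ⟨g, hg, hg0, hg1, T, hT, h2⟩ := push_of_small A hc hR 𝒟 hN hno hv0
      (fun C => small_of_stab A hc hR 𝒟 B hB hX hinv hst (hrX p) C)
      (c := d - b) (c' := d' - b) (by linarith) K hK
    have hΦe : ∀ y, Φ (p, y) = A.H v y + b := fun y => rfl
    refine ⟨g, hg, hg0, ?_, T, hT, ?_⟩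
    · intro y hy t ht
      rw [hΦe] at hy ⊢
      have := hg1 y (by linarith) t ht
      linarith
    · intro y hy
      rw [hΦe]
      have := h2 y hy
      linarith
  · -- properness
    rw [Filter.tendsto_atTop]
    intro b
    obtain ⟨b', hb'⟩ := hst b
    obtain ⟨D, hD⟩ : ∃ D : ℝ, ∀ S ∈ KB X b', ‖s S‖ ≤ D := by
      have h1 : ContinuousOn (fun S => ‖s S‖) (KB X b') :=
        (hs.mono fun S hS => hS.1).norm
      obtain ⟨D, hD⟩ := ((hX.isCompact_KB b').image_of_continuousOn h1).bddAbove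
      exact ⟨D, fun S hS => hD ⟨S, hS, rfl⟩⟩
    have h2 := (isCompact_closedBall (0 : Fin N → ℝ) (b + D)).compl_mem_cocompact
    filter_upwards [h2] with p hp
    by_contra hlt
    push Not at hlt
    apply hp
    have hval : A.H (r p *ᵥ a) x₀ = a ⬝ᵥ r p *ᵥ a := H_eq_mom A _ _
    have hpos : 0 ≤ a ⬝ᵥ r p *ᵥ a := by
      have := (hX.pos _ (hrX p)).posSemidef.dotProduct_mulVec_nonneg a
      rwa [star_trivial] at this
    have h3 : A.H (r p *ᵥ a) x₀ + ‖p - s (r p)‖ < b := hlt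
    rw [hval] at h3
    have h4 := hD _ (hb' _ (hrX p) (by have := norm_nonneg (p - s (r p)); linarith))
    rw [mem_closedBall_zero_iff]
    have h5 : ‖p‖ ≤ ‖s (r p)‖ + ‖p - s (r p)‖ := by
      have := norm_add_le (s (r p)) (p - s (r p))
      rwa [add_sub_cancel] at this
    linarith
  · -- the bound
    intro y
    set S := mn X (Qm A ι y) with hS
    set G := gm X T₁ S with hG
    obtain ⟨a1, a2⟩ := gm_spec hX hT₁ (hLX y)
    have hQp := posDef_Qm A ι hc hR y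
    have hGp := hX.pos _ (hGX y)
    have hT₁p := hX.pos T₁ hT₁
    have e1 : Φ (s G, y) = A.H (G *ᵥ a) y := by
      show A.H (r (s G) *ᵥ a) y + ‖s G - s (r (s G))‖ = _
      rw [hrs G (hGX y), sub_self, norm_zero, add_zero]
    rw [e1]
    have e2 : A.Q ι (G *ᵥ a) y ≤ (a ⬝ᵥ T₁ *ᵥ a) * C := by
      rw [← Qm_quad A ι hc.smooth]
      have e3 : (G *ᵥ a) ⬝ᵥ Qm A ι y *ᵥ (G *ᵥ a) = a ⬝ᵥ (G * Qm A ι y * Gᵀ) *ᵥ a := by
        rw [← mulVec_mulVec, ← mulVec_mulVec, dotProduct_mulVec a G, ← mulVec_transpose,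
          symd hGp]
      rw [e3]
      have hM := psd_conj hQp.posSemidef G
      refine (quad_le hT₁p hM a).trans ?_
      have hq : 0 ≤ a ⬝ᵥ T₁ *ᵥ a := by
        have := hT₁p.posSemidef.dotProduct_mulVec_nonneg a
        rwa [star_trivial] at this
      apply mul_le_mul_of_nonneg_left _ hq
      have e4 : (G * Qm A ι y * Gᵀ * T₁⁻¹).trace = (Qm A ι y * S).trace := by
        rw [symd hGp]
        have : G * Qm A ι y * G * T₁⁻¹ = G * (Qm A ι y * G * T₁⁻¹) := by noncomm_ring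
        rw [this, trace_mul_comm]
        have e5 : Qm A ι y * G * T₁⁻¹ * G = Qm A ι y * (G * T₁⁻¹ * G) := by noncomm_ring
        rw [e5, a2]
      rw [e4]
      exact (trace_le_ff hQp (hX.pos _ (hLX y))).trans (hC y)
    have e6 : A.H (G *ᵥ a) y ≤ 1 + A.Q ι (G *ᵥ a) y := by
      have h1 := ι.G_nonneg (A.H (G *ᵥ a)) y
      have h2 : A.Q ι (G *ᵥ a) y = ι.G (A.H (G *ᵥ a)) y + (A.H (G *ᵥ a) y) ^ 2 := rfl
      nlinarith [sq_nonneg (A.H (G *ᵥ a) y - 1), sq_nonneg (A.H (G *ᵥ a) y)]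
    linarith

end Pool.Agent.Y520
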