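import Mathlib
import Pool.Agent.Y520.Crit

/-! The momentum of a locally free torus symmetry of a contact form is contained in no proper
algebraic cone. -/

open scoped Topology ContDiff Manifold
open Set Metric Bundle Filter Matrix Pool.Agent.Helper186

noncomputable section

namespace Pool.Agent.Y520

open Pool.Agent.H826R2.Wein Pool.Agent.Y520.Mat Pool.Agent.TH607

set_option linter.unusedSectionVars false

universe u

variable {E : Type u} [NormedAddCommGroup E] [NormedSpace ℝ E] [FiniteDimensional ℝ E]
  {P : Type*} [TopologicalSpace P] [ChartedSpace E P] [IsManifold 𝓘(ℝ, E) ∞ P]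
  {β : (x : P) → TangentSpace 𝓘(ℝ, E) x →L[ℝ] ℝ} {m : ℕ}
  (A : TAct β m)

/-- polynomials in the components of the momentum -/
def pf (F : MvPolynomial (Fin m) ℝ) (x : P) : ℝ := MvPolynomial.eval (mom A x) F

lemma pf_deriv (hβ : SmoothForm β) (F : MvPolynomial (Fin m) ℝ) :
    ContMDiff 𝓘(ℝ, E) 𝓘(ℝ, ℝ) ∞ (pf A F) ∧ ∀ (x : P) (u : TangentSpace 𝓘(ℝ, E) x),
      dForm 𝓘(ℝ, E) (pf A F) x u =
      ∑ i, pf A (MvPolynomial.pderiv i F) x * dForm 𝓘(ℝ, E) (A.H (Pi.single i 1)) x u := by
  induction F using MvPolynomial.induction_on with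
  | C a =>
    have e : pf A (MvPolynomial.C a) = fun _ => a := by
      ext1 x
      simp [pf]
    refine ⟨by rw [e]; exact contMDiff_const, fun x u => ?_⟩
    have h0 : dForm 𝓘(ℝ, E) (pf A (MvPolynomial.C a)) x = 0 := by
      rw [e]
      exact dForm_eq_zero_of_eventually (a := a) (Filter.Eventually.of_forall fun _ => rfl)
    rw [h0]
    have h1 : ∀ i : Fin m, pf A (MvPolynomial.pderiv i (MvPolynomial.C a)) x = 0 := by
      intro i
      simp [pf]
    simp only [h1, zero_mul, Finset.sum_const_zero]
    rfl
  | add p q hp hq =>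
    have e : pf A (p + q) = fun x => pf A p x + pf A q x := by
      ext1 x
      simp [pf]
    refine ⟨by rw [e]; exact hp.1.add hq.1, fun x u => ?_⟩
    rw [e, CD.dForm_add hp.1 hq.1, hp.2, hq.2, ← Finset.sum_add_distrib]
    refine Finset.sum_congr rfl fun i _ => ?_
    have : pf A (MvPolynomial.pderiv i (p + q)) x =
        pf A (MvPolynomial.pderiv i p) x + pf A (MvPolynomial.pderiv i q) x := by
      simp [pf]
    rw [this]
    ring
  | mul_X p j hp =>
    have hs := A.smooth_H hβ (Pi.single j 1)
    have e : pf A (p * MvPolynomial.X j) = fun x => pf A p x * A.H (Pi.single j 1) x := by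
      ext1 x
      simp [pf, mom]
    refine ⟨by rw [e]; exact hp.1.mul hs, fun x u => ?_⟩
    rw [e, dForm_mul (hp.1.mdifferentiableAt (by simp)) (hs.mdifferentiableAt (by simp)), hp.2]
    have h1 : ∀ i, pf A (MvPolynomial.pderiv i (p * MvPolynomial.X j)) x =
        pf A (MvPolynomial.pderiv i p) x * A.H (Pi.single j 1) x +
          pf A p x * (if i = j then 1 else 0) := by
      intro i
      have h2 : MvPolynomial.pderiv i (p * MvPolynomial.X j) =
          MvPolynomial.pderiv i p * MvPolynomial.X j +
          p * MvPolynomial.pderiv i (MvPolynomial.X j) := MvPolynomial.pderiv_mul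
      rw [h2]
      by_cases hij : i = j
      · subst hij
        simp [pf, mom]
      · rw [MvPolynomial.pderiv_X_of_ne (fun h => hij h.symm), if_neg hij]
        simp [pf, mom]
    simp only [h1, add_mul, Finset.sum_add_distrib]
    have h3 : ∑ i, pf A p x * (if i = j then 1 else 0) *
        dForm 𝓘(ℝ, E) (A.H (Pi.single i 1)) x u =
        pf A p x * dForm 𝓘(ℝ, E) (A.H (Pi.single j 1)) x u := by
      rw [Finset.sum_eq_single j]
      · simp
      · intro i _ hi
        simp [hi]
      · intro h
        exact absurd (Finset.mem_univ j) h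
    rw [h3, Finset.mul_sum, add_comm]
    congr 1
    refine Finset.sum_congr rfl fun i _ => ?_
    ring

lemma dH_expand (hβ : SmoothForm β) (κ : Fin m → ℝ) (x : P) (u : TangentSpace 𝓘(ℝ, E) x) :
    dForm 𝓘(ℝ, E) (A.H κ) x u = ∑ i, κ i * dForm 𝓘(ℝ, E) (A.H (Pi.single i 1)) x u :=
  lin_expand
    { toFun := fun κ => dForm 𝓘(ℝ, E) (A.H κ) x u
      map_add' := fun a b => by rw [A.dH_add hβ]; rfl
      map_smul' := fun c a => by rw [A.dH_smul hβ]; rfl } κ

/-- **The momentum is not contained in a proper algebraic cone.** -/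
theorem exists_pf_ne_zero [Nonempty P] (hc : IsContact β)
    {R : (x : P) → TangentSpace 𝓘(ℝ, E) x} (hR : IsReeb β R) (d : ℕ) :
    ∀ F : MvPolynomial (Fin m) ℝ, F.IsHomogeneous d → F ≠ 0 → ∃ x : P, pf A F x ≠ 0 := by
  induction d with
  | zero =>
    intro F hF h0
    obtain ⟨x⟩ := ‹Nonempty P›
    refine ⟨x, fun h => h0 ?_⟩
    have h1 : F = MvPolynomial.C (F.coeff 0) := by
      rw [← MvPolynomial.totalDegree_eq_zero_iff_eq_C]
      exact hF.totalDegree h0
    rw [h1] at h ⊢
    simp only [pf, MvPolynomial.eval_C] at h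
    rw [h, map_zero]
  | succ d ih =>
    intro F hF h0
    by_contra hno
    push Not at hno
    have hz : pf A F = fun _ => 0 := funext hno
    obtain ⟨-, hd⟩ := pf_deriv A hc.smooth F
    -- all partial derivatives vanish on the momentum
    have key : ∀ (x : P) (i : Fin m), pf A (MvPolynomial.pderiv i F) x = 0 := by
      intro x
      set κ : Fin m → ℝ := fun i => pf A (MvPolynomial.pderiv i F) x with hκ
      have hcrit : dForm 𝓘(ℝ, E) (A.H κ) x = 0 := by
        refine ContinuousLinearMap.ext fun u => ?_
        rw [dH_expand A hc.smooth, ← hd x u, hz]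
        have h1 : dForm 𝓘(ℝ, E) (fun _ : P => (0:ℝ)) x = 0 :=
          dForm_eq_zero_of_eventually (a := 0) (Filter.Eventually.of_forall fun _ => rfl)
        rw [h1]
      have hval : A.H κ x = 0 := by
        rw [H_eq_mom]
        have h1 := congrArg (MvPolynomial.eval (mom A x)) hF.sum_X_mul_pderiv
        rw [map_sum] at h1
        have h2 : MvPolynomial.eval (mom A x) ((d + 1) • F) = 0 := by
          rw [map_nsmul]
          have : MvPolynomial.eval (mom A x) F = 0 := hno x
          rw [this, smul_zero]
        rw [h2] at h1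
        rw [← h1]
        simp only [dotProduct, map_mul, MvPolynomial.eval_X]
        rfl
      by_contra hne
      push Not at hne
      obtain ⟨i, hi⟩ := hne
      have hκ0 : κ ≠ 0 := fun h => hi (congrFun h i)
      exact A.H_ne_zero_of_crit hc hR hκ0 hcrit hval
    have hp : ∀ i : Fin m, MvPolynomial.pderiv i F = 0 := by
      intro i
      by_contra hi
      have h1 : (MvPolynomial.pderiv i F).IsHomogeneous d := by
        have := hF.pderiv (i := i)
        simpa using this
      obtain ⟨x, hx⟩ := ih _ h1 hi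
      exact hx (key x i)
    have h1 := hF.sum_X_mul_pderiv
    simp only [hp, mul_zero, Finset.sum_const_zero] at h1
    have h2 : (d + 1 : ℕ) ≠ 0 := Nat.succ_ne_zero d
    rcases smul_eq_zero.1 h1.symm with h | h
    · exact h2 h
    · exact h0 h

end Pool.Agent.Y520
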