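import Mathlib
import Pool.Agent.Y520.Euler
import Pool.Agent.H826R2.Wein.Bridge
import Pool.Agent.H826R2.Wein.Main4

/-! Closed Reeb orbits from stable momenta. -/

open scoped Topology ContDiff Manifold
open Set Metric Bundle Filter Matrix Pool.Agent.Helper186

noncomputable section

namespace Pool.Agent.Y520

open Pool.Agent.H826R2.Wein Pool.Agent.Y520.Mat

set_option linter.unusedSectionVars false

universe u

variable {E : Type u} [NormedAddCommGroup E] [NormedSpace ℝ E] [FiniteDimensional ℝ E]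
  {P : Type*} [TopologicalSpace P] [ChartedSpace E P] [IsManifold 𝓘(ℝ, E) ∞ P]
  {M : Type*} [TopologicalSpace M] [ChartedSpace E M] [IsManifold 𝓘(ℝ, E) ∞ M] {m : ℕ}

lemma Br_inj {C C' : Matrix (Fin m) (Fin m) ℤ} (h : ∀ κ : Fin m → ℝ, Br C *ᵥ κ = Br C' *ᵥ κ) :
    C = C' := by
  ext i j
  have h1 := congrFun (h (Pi.single j 1)) i
  rw [mulVec_single_one, mulVec_single_one] at h1
  have h2 : ((C i j : ℤ) : ℝ) = ((C' i j : ℤ) : ℝ) := h1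
  exact_mod_cast h2

/-- the setting of a finite index subgroup, with its monodromy representation -/
theorem exists_closed_orbit_stable' [T2Space M] [CompactSpace M]
    {α : (x : M) → TangentSpace 𝓘(ℝ, E) x →L[ℝ] ℝ} (hα : IsContact α)
    {R : (x : M) → TangentSpace 𝓘(ℝ, E) x} (hR : IsReeb α R)
    [T2Space P] [SigmaCompactSpace P] [Nonempty P]
    {Γ : Type*} [Group Γ] [MulAction Γ P] {q : P → M} (hq : RegCover (E := E) q Γ)
    (hm : 0 < m) (A : TAct (pullForm 𝓘(ℝ, E) 𝓘(ℝ, E) q α) m)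
    {X : Set (Mt m)} (hX : TG X) (hne : X.Nonempty)
    (hA₀ : ∀ γ : Γ, ∃ B : Matrix (Fin m) (Fin m) ℤ, ∀ (θ : Fin m → ℝ) (x : P),
      γ • A.act θ x = A.act ((B.map (Int.cast : ℤ → ℝ)).mulVec θ) (γ • x))
    (Γ₀ : Subgroup Γ) (hΓ₀ : Γ₀.FiniteIndex)
    (p : Matrix (Fin m) (Fin m) ℤ → Prop)
    (hA : ∀ γ ∈ Γ₀, ∃ B : Matrix (Fin m) (Fin m) ℤ, (∀ (θ : Fin m → ℝ) (x : P),
      γ • A.act θ x = A.act ((B.map (Int.cast : ℤ → ℝ)).mulVec θ) (γ • x)) ∧ p B)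
    (hpX : ∀ B : Matrix (Fin m) (Fin m) ℤ, IsUnit B.det → p B →
      ∀ S ∈ X, Br B * S * (Br B)ᵀ ∈ X)
    (hst : ∃ x₀ : P, Stab X (mom A x₀)) :
    ∃ (c : ℝ → M) (T : ℝ), 0 < T ∧ IsMIntegralCurve (I := 𝓘(ℝ, E)) c R ∧
      ∀ t, c (t + T) = c t := by
  obtain ⟨N, ι, ⟨𝒟⟩⟩ := hq.exists_deck
  obtain ⟨x₀, hst⟩ := hst
  have hN : A.Norm Γ := ⟨hq.strict α, hA₀⟩
  have hN' : A.Norm Γ₀ := ⟨fun γ x u => hN.strict (γ : Γ) x u, fun γ => hN.norm (γ : Γ)⟩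
  have hcP := hq.isContact_pull hα
  have hRP := hq.isReeb_lift hα hR
  apply hq.closed_proj
  obtain ⟨B, hB⟩ := A.exists_monodromy hcP hRP (𝒟.restrict Γ₀ hΓ₀) hN'
  have hinv : ∀ γ : Γ₀, ∀ S ∈ X, Br (B γ) * S * (Br (B γ))ᵀ ∈ X := by
    intro γ
    obtain ⟨C, hC, hCp⟩ := hA γ γ.2
    have e : C = B γ := by
      apply Br_inj
      intro κ
      rw [← sub_eq_zero]
      apply A.H_inj ι hcP hRP
      intro y
      rw [A.H_sub]
      have h1 : ∀ x, A.H (Br C *ᵥ κ) (γ • x) = A.H κ x := by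
        intro x
        refine A.H_push ((𝒟.restrict Γ₀ hΓ₀).smooth γ) ?_ (hN'.strict γ) x
        intro t y
        unfold TAct.fam
        show (γ : Γ) • A.act (t • κ) y = A.act (t • (Br C *ᵥ κ)) ((γ : Γ) • y)
        rw [hC, Matrix.mulVec_smul]
        rfl
      have h2 := h1 (γ⁻¹ • y)
      have h3 := hB γ κ (γ⁻¹ • y)
      rw [smul_inv_smul] at h2 h3
      rw [h2]
      exact sub_eq_zero.2 h3.symm
    refine hpX _ ?_ (e ▸ hCp)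
    rw [← isUnit_iff_isUnit_det]
    exact IsUnit.of_mul_eq_one (B γ⁻¹) (by rw [← map_mul, mul_inv_cancel, map_one])
  obtain ⟨k, hk, y, hy⟩ := exists_crit_stable A hcP hRP (𝒟.restrict Γ₀ hΓ₀) hN' hm B hB hX hne
    hinv x₀ hst
  exact A.closed_of_crit hcP hRP hk hy

theorem exists_closed_orbit_stable [T2Space M] [CompactSpace M]
    {α : (x : M) → TangentSpace 𝓘(ℝ, E) x →L[ℝ] ℝ} (hα : IsContact α)
    {R : (x : M) → TangentSpace 𝓘(ℝ, E) x} (hR : IsReeb α R)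
    [T2Space P] [SigmaCompactSpace P] [Nonempty P]
    {Γ : Type*} [Group Γ] [MulAction Γ P] {q : P → M} (hq : RegCover (E := E) q Γ)
    (hm : 0 < m) (A : TAct (pullForm 𝓘(ℝ, E) 𝓘(ℝ, E) q α) m)
    {X : Set (Mt m)} (hX : TG X) (hne : X.Nonempty)
    (hA₀ : ∀ γ : Γ, ∃ B : Matrix (Fin m) (Fin m) ℤ, ∀ (θ : Fin m → ℝ) (x : P),
      γ • A.act θ x = A.act ((B.map (Int.cast : ℤ → ℝ)).mulVec θ) (γ • x))
    (Γ₀ : Subgroup Γ) (hΓ₀ : Γ₀.FiniteIndex)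
    (hA : ∀ γ ∈ Γ₀, ∃ B : Matrix (Fin m) (Fin m) ℤ, (∀ (θ : Fin m → ℝ) (x : P),
      γ • A.act θ x = A.act ((B.map (Int.cast : ℤ → ℝ)).mulVec θ) (γ • x)) ∧
      ∀ S ∈ X, Br B * S * (Br B)ᵀ ∈ X)
    (hst : ∃ x₀ : P, Stab X (mom A x₀)) :
    ∃ (c : ℝ → M) (T : ℝ), 0 < T ∧ IsMIntegralCurve (I := 𝓘(ℝ, E)) c R ∧
      ∀ t, c (t + T) = c t :=
  exists_closed_orbit_stable' hα hR hq hm A hX hne hA₀ Γ₀ hΓ₀
    (fun B => ∀ S ∈ X, Br B * S * (Br B)ᵀ ∈ X) hA (fun _ _ h => h) hst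

end Pool.Agent.Y520
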