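import Mathlib

/-! A polynomial which vanishes at all multiples of a point vanishes there with all its homogeneous
components. -/

open MvPolynomial

noncomputable section

namespace Pool.Agent.Y520

variable {m : ℕ}

lemma eval_smul_hom {F : MvPolynomial (Fin m) ℝ} {d : ℕ} (hF : F.IsHomogeneous d) (c : ℝ)
    (a : Fin m → ℝ) : eval (c • a) F = c ^ d * eval a F := by
  rw [eval_eq', eval_eq', Finset.mul_sum]
  refine Finset.sum_congr rfl fun e he => ?_
  have h1 : ∑ i, e i = d := by
    have h2 := hF (mem_support_iff.1 he)
    rw [← h2, Finsupp.weight_apply, Finsupp.sum_fintype]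
    · simp
    · simp
  have h2 : ∏ i, (c • a) i ^ e i = c ^ d * ∏ i, a i ^ e i := by
    simp only [Pi.smul_apply, smul_eq_mul, mul_pow]
    rw [Finset.prod_mul_distrib, Finset.prod_pow_eq_pow_sum, h1]
  rw [h2]
  ring

/-- some multiple of the point is not a zero of the polynomial -/
lemma exists_smul_ne_zero {F : MvPolynomial (Fin m) ℝ} {a : Fin m → ℝ} {d : ℕ}
    (h : eval a (homogeneousComponent d F) ≠ 0) : ∃ c : ℝ, c ≠ 0 ∧ eval (c • a) F ≠ 0 := by
  set p : Polynomial ℝ := ∑ i ∈ Finset.range (F.totalDegree + 1),
    Polynomial.C (eval a (homogeneousComponent i F)) * Polynomial.X ^ i with hp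
  have hev : ∀ c : ℝ, p.eval c = eval (c • a) F := by
    intro c
    conv_rhs => rw [← sum_homogeneousComponent F]
    rw [hp, Polynomial.eval_finsetSum, map_sum]
    refine Finset.sum_congr rfl fun i _ => ?_
    rw [eval_smul_hom (homogeneousComponent_isHomogeneous i F), Polynomial.eval_mul,
      Polynomial.eval_C, Polynomial.eval_pow, Polynomial.eval_X, mul_comm]
  have hd : d ∈ Finset.range (F.totalDegree + 1) := by
    rw [Finset.mem_range]
    by_contra hlt
    apply h
    rw [homogeneousComponent_eq_zero d F (by omega), map_zero]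
  have hp0 : p ≠ 0 := by
    intro h0
    have h1 : p.coeff d = eval a (homogeneousComponent d F) := by
      rw [hp, Polynomial.finsetSum_coeff]
      simp only [Polynomial.coeff_C_mul, Polynomial.coeff_X_pow]
      rw [Finset.sum_eq_single d]
      · simp
      · intro i _ hi
        simp [Ne.symm hi]
      · intro hcon
        exact absurd hd hcon
    rw [h0, Polynomial.coeff_zero] at h1
    exact h h1.symm
  have hfin : ({c : ℝ | p.eval c = 0} ∪ {0}).Finite :=
    (Polynomial.finite_setOfPred_isRoot hp0).union (Set.finite_singleton 0)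
  obtain ⟨c, hc⟩ := hfin.infinite_compl.nonempty
  simp only [Set.mem_compl_iff, Set.mem_union, Set.mem_singleton_iff, not_or] at hc
  exact ⟨c, hc.2, fun h0 => hc.1 (by rw [← hev] at h0; exact h0)⟩

end Pool.Agent.Y520
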