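import Mathlib
import Pool.Agent.Y520.Fin
import Pool.Agent.Y520.Hom
import Pool.Agent.W669.Cone.Stmt

/-! Definitions and elementary form: closed Reeb orbits for contact forms with a local torus
symmetry of any rank whose momentum is stable with respect to a totally geodesic family of inner
products invariant under the monodromy. -/

open scoped Topology ContDiff Manifold
open Set

noncomputable section

namespace Pool.Agent.Y520.SStmt

open Pool.Agent.H826R2.WStmt Pool.Agent.W669.ConeStmt Pool.Agent.Y520.Mat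

set_option linter.unusedSectionVars false

universe u

/-- A nonempty set `X` of positive definite real matrices, closed in the space of all positive
definite matrices, which is totally geodesic: it contains with two matrices `S`, `T` the reflection
`T S⁻¹ T` of `S` at `T` and a matrix `G` with `G S⁻¹ G = T`, the midpoint. -/
structure TotallyGeodesic {m : ℕ} (X : Set (Matrix (Fin m) (Fin m) ℝ)) : Prop where
  nonempty : X.Nonempty
  posDef : ∀ S ∈ X, S.PosDef
  closed : ∀ S ∈ closure X, S.PosDef → S ∈ X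
  reflection : ∀ S ∈ X, ∀ T ∈ X, T * S⁻¹ * T ∈ X
  midpoint : ∀ S ∈ X, ∀ T ∈ X, ∃ G ∈ X, G * S⁻¹ * G = T

/-- The covector `a` is stable for `X`: the function `S ↦ S(a, a)` is proper on `X`, that is, the
matrices `S` in `X` with `∑ a_i S_ij a_j ≤ C` are bounded together with their inverses. -/
def IsStable {m : ℕ} (X : Set (Matrix (Fin m) (Fin m) ℝ)) (a : Fin m → ℝ) : Prop :=
  ∀ C : ℝ, ∃ b : ℝ, ∀ S ∈ X, ∑ i, ∑ j, a i * S i j * a j ≤ C →
    ∀ i j, |S i j| ≤ b ∧ |S⁻¹ i j| ≤ b

section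

variable {E : Type u} [NormedAddCommGroup E] [NormedSpace ℝ E] [FiniteDimensional ℝ E]
  {M : Type*} [TopologicalSpace M] [ChartedSpace E M] [IsManifold 𝓘(ℝ, E) ∞ M]
  {P : Type*} [TopologicalSpace P] [ChartedSpace E P] [IsManifold 𝓘(ℝ, E) ∞ P]

/-- The monodromy of the torus action virtually preserves the set `X`: for all elements `γ` of a
subgroup of finite index of `Γ` one has `γ (θ x) = (B θ) (γ x)` with an integer matrix `B` depending
on `γ` such that `B S Bᵀ` lies in `X` for all `S` in `X`. -/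
def MonodromyInvariant (Γ : Type*) [Group Γ] [MulAction Γ P] {m : ℕ}
    (act : (Fin m → ℝ) → P → P) (X : Set (Matrix (Fin m) (Fin m) ℝ)) : Prop :=
  ∃ Γ₀ : Subgroup Γ, Γ₀.FiniteIndex ∧ ∀ γ ∈ Γ₀, ∃ B : Matrix (Fin m) (Fin m) ℤ,
    (∀ (θ : Fin m → ℝ) (x : P), γ • act θ x = act (fun i => ∑ j, (B i j : ℝ) * θ j) (γ • x)) ∧
    ∀ S ∈ X, B.map (Int.cast : ℤ → ℝ) * S * (B.map (Int.cast : ℤ → ℝ)).transpose ∈ X

lemma TotallyGeodesic.toTG {m : ℕ} {X : Set (Matrix (Fin m) (Fin m) ℝ)}
    (h : TotallyGeodesic X) : TG X :=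
  ⟨h.posDef, h.closed, h.reflection, h.midpoint⟩

lemma quad_eq {m : ℕ} (S : Matrix (Fin m) (Fin m) ℝ) (a : Fin m → ℝ) :
    a ⬝ᵥ S.mulVec a = ∑ i, ∑ j, a i * S i j * a j := by
  simp only [dotProduct, Matrix.mulVec, Finset.mul_sum]
  refine Finset.sum_congr rfl fun i _ => Finset.sum_congr rfl fun j _ => ?_
  ring

lemma IsStable.toStab {m : ℕ} {X : Set (Matrix (Fin m) (Fin m) ℝ)} {a : Fin m → ℝ}
    (h : IsStable X a) : Stab X a := by
  intro C
  obtain ⟨b, hb⟩ := h C
  refine ⟨b, fun S hS hC => ⟨hS, hb S hS ?_⟩⟩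
  rw [← quad_eq]
  exact hC

lemma IsStable.of_smul {m : ℕ} {X : Set (Matrix (Fin m) (Fin m) ℝ)} {a : Fin m → ℝ} {c : ℝ}
    (h : IsStable X (c • a)) : IsStable X a := by
  intro C
  obtain ⟨b, hb⟩ := h (c ^ 2 * C)
  refine ⟨b, fun S hS hC => hb S hS ?_⟩
  have e : ∑ i, ∑ j, (c • a) i * S i j * (c • a) j = c ^ 2 * ∑ i, ∑ j, a i * S i j * a j := by
    simp only [Finset.mul_sum, Pi.smul_apply, smul_eq_mul]
    refine Finset.sum_congr rfl fun i _ => Finset.sum_congr rfl fun j _ => ?_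
    ring
  rw [e]
  exact mul_le_mul_of_nonneg_left hC (sq_nonneg c)

/-- **Stable momentum.** -/
theorem exists_periodic_stable [T2Space M] [CompactSpace M]
    (α : M → Cov E) (hα : IsContact α) (R : M → E) (hR : IsReeb α R)
    [T2Space P] [SigmaCompactSpace P]
    {Γ : Type*} [Group Γ] [MulAction Γ P] (q : P → M) (hq : IsQuotientMap E q Γ)
    {m : ℕ} (hm : 0 < m) (A : TorusAction (pull (E := E) q α) m) (hA : Normalises Γ A.act)
    (X : Set (Matrix (Fin m) (Fin m) ℝ)) (hX : TotallyGeodesic X)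
    (hAX : MonodromyInvariant Γ A.act X)
    (x : P) (hx : IsStable X (fun i => momentum A x (Pi.single i 1))) :
    ∃ (c : ℝ → M) (T : ℝ), IsPeriodicOrbit R c T := by
  obtain ⟨Γ₀, hΓ₀, hAX⟩ := hAX
  have : Nonempty P := ⟨x⟩
  obtain ⟨c, T, h1, h2, h3⟩ := exists_closed_orbit_stable hα.toWein hR.toWein
    hq.toWein hm A.toWein hX.toTG hX.nonempty hA Γ₀ hΓ₀ hAX ⟨x, hx.toStab⟩
  exact ⟨c, T, h1, h2, h3⟩

/-- **Generically stable monodromy.** -/
theorem exists_periodic_generic [T2Space M] [CompactSpace M]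
    (α : M → Cov E) (hα : IsContact α) (R : M → E) (hR : IsReeb α R)
    [T2Space P] [SigmaCompactSpace P] [Nonempty P]
    {Γ : Type*} [Group Γ] [MulAction Γ P] (q : P → M) (hq : IsQuotientMap E q Γ)
    {m : ℕ} (hm : 0 < m) (A : TorusAction (pull (E := E) q α) m) (hA : Normalises Γ A.act)
    (X : Set (Matrix (Fin m) (Fin m) ℝ)) (hX : TotallyGeodesic X)
    (hAX : MonodromyInvariant Γ A.act X)
    (F : MvPolynomial (Fin m) ℝ) (hF : F ≠ 0)
    (hst : ∀ a : Fin m → ℝ, MvPolynomial.eval a F ≠ 0 → IsStable X a) :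
    ∃ (c : ℝ → M) (T : ℝ), IsPeriodicOrbit R c T := by
  obtain ⟨d, hd⟩ : ∃ d, MvPolynomial.homogeneousComponent d F ≠ 0 := by
    by_contra hno
    push Not at hno
    apply hF
    rw [← MvPolynomial.sum_homogeneousComponent F]
    exact Finset.sum_eq_zero fun i _ => hno i
  have hq' : H826R2.Wein.RegCover (E := E) q Γ := hq.toWein
  obtain ⟨x, hx⟩ := exists_pf_ne_zero A.toWein (hq'.isContact_pull hα.toWein)
    (hq'.isReeb_lift hα.toWein hR.toWein) d _
    (MvPolynomial.homogeneousComponent_isHomogeneous d F) hd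
  obtain ⟨c, hc, hcF⟩ := exists_smul_ne_zero hx
  exact exists_periodic_stable α hα R hR q hq hm A hA X hX hAX x (hst _ hcF).of_smul

end

end Pool.Agent.Y520.SStmt
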