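import Mathlib
import Pool.Agent.Y520.Stmt

/-! Monodromy groups commuting with a group of isometries having a cyclic vector. -/

open scoped Topology ContDiff Manifold
open Set Matrix

noncomputable section

namespace Pool.Agent.Y520.SStmt

open Pool.Agent.H826R2.WStmt Pool.Agent.W669.ConeStmt Pool.Agent.Y520.Mat

set_option linter.unusedSectionVars false

universe u

variable {m : ℕ}

open scoped MatrixOrder in
/-- positive square roots -/
lemma exists_sqrt {M : Mt m} (hM : M.PosDef) : ∃ N : Mt m, N.PosDef ∧ N * N = M := by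
  have h1 : CFC.sqrt M * CFC.sqrt M = M := CFC.sqrt_mul_sqrt_self M hM.posSemidef.nonneg
  have h2 : (CFC.sqrt M).PosSemidef := (CFC.sqrt_nonneg M).posSemidef
  refine ⟨CFC.sqrt M, ?_, h1⟩
  rw [h2.posDef_iff_isUnit]
  have h3 : IsUnit (CFC.sqrt M * CFC.sqrt M) := by rw [h1]; exact hM.isUnit
  rw [isUnit_iff_isUnit_det] at h3 ⊢
  rw [det_mul] at h3
  exact isUnit_of_mul_isUnit_left h3

/-- **Existence of geometric means.** -/
lemma exists_mean {S T : Mt m} (hS : S.PosDef) (hT : T.PosDef) :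
    ∃ G : Mt m, G.PosDef ∧ G * S⁻¹ * G = T := by
  obtain ⟨R, hR⟩ := exists_sq hS.posSemidef
  have hRu : IsUnit R.det := by
    have h1 := det_unit hS
    rw [hR, det_mul] at h1
    exact isUnit_of_mul_isUnit_right h1
  have hRu' : IsUnit R := (isUnit_iff_isUnit_det R).2 hRu
  have hi : IsUnit R⁻¹ := by
    rw [isUnit_iff_isUnit_det, isUnit_nonsing_inv_det_iff]
    exact hRu
  have r1 := mul_nonsing_inv R hRu
  have r2 := nonsing_inv_mul R hRu
  have r3 : Rᵀ * R⁻¹ᵀ = 1 := by rw [← transpose_mul, r2, transpose_one]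
  have r4 : R⁻¹ᵀ * Rᵀ = 1 := by rw [← transpose_mul, r1, transpose_one]
  have hM : (R⁻¹ᵀ * T * R⁻¹).PosDef := by
    have h1 : IsUnit (R⁻¹ᵀ) := by
      rw [isUnit_iff_isUnit_det, det_transpose, ← isUnit_iff_isUnit_det]
      exact hi
    have := pd_conj hT h1
    rwa [transpose_transpose] at this
  obtain ⟨N, hN, hNN⟩ := exists_sqrt hM
  have hG : (Rᵀ * N * R).PosDef := by
    have h1 : IsUnit (Rᵀ) := by
      rw [isUnit_iff_isUnit_det, det_transpose]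
      exact hRu
    have := pd_conj hN h1
    rwa [transpose_transpose] at this
  refine ⟨Rᵀ * N * R, hG, ?_⟩
  have hSi : S⁻¹ = R⁻¹ * R⁻¹ᵀ := by
    rw [hR, Matrix.mul_inv_rev, transpose_nonsing_inv]
  rw [hSi]
  have e : Rᵀ * N * R * (R⁻¹ * R⁻¹ᵀ) * (Rᵀ * N * R) =
      Rᵀ * N * (R * R⁻¹) * (R⁻¹ᵀ * Rᵀ) * N * R := by noncomm_ring
  rw [e, r1, r4, Matrix.mul_one, Matrix.mul_one, Matrix.mul_assoc Rᵀ N N, hNN]
  have e2 : Rᵀ * (R⁻¹ᵀ * T * R⁻¹) * R = (Rᵀ * R⁻¹ᵀ) * T * (R⁻¹ * R) := by noncomm_ring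
  rw [e2, r3, r2, Matrix.one_mul, Matrix.mul_one]

/-- inner products of determinant one preserved by a set of matrices -/
def Inv (𝒦 : Set (Mt m)) : Set (Mt m) := {S | S.PosDef ∧ S.det = 1 ∧ ∀ k ∈ 𝒦, k * S * kᵀ = S}

lemma Inv.totallyGeodesic {𝒦 : Set (Mt m)} {S₀ : Mt m} (hS₀ : S₀.PosDef)
    (h₀ : ∀ k ∈ 𝒦, k * S₀ * kᵀ = S₀) (hm : 0 < m) : TotallyGeodesic (Inv 𝒦) := by
  have hdetk : ∀ k ∈ 𝒦, IsUnit k.det := by
    intro k hk
    have h1 := congrArg det (h₀ k hk)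
    rw [det_mul, det_mul] at h1
    have h2 := det_unit hS₀
    rw [← h1] at h2
    exact isUnit_of_mul_isUnit_left (isUnit_of_mul_isUnit_left h2)
  have hinv : ∀ k ∈ 𝒦, ∀ S : Mt m, k * S * kᵀ = S → k⁻¹ᵀ * S⁻¹ * k⁻¹ = S⁻¹ := by
    intro k hk S h
    conv_rhs => rw [← h]
    rw [Matrix.mul_inv_rev, Matrix.mul_inv_rev, ← transpose_nonsing_inv, Matrix.mul_assoc]
  -- conjugating `T S⁻¹ T`
  have hconj : ∀ k ∈ 𝒦, ∀ S T : Mt m, k * S * kᵀ = S →
      k * (T * S⁻¹ * T) * kᵀ = (k * T * kᵀ) * S⁻¹ * (k * T * kᵀ) := by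
    intro k hk S T h
    have hu := hdetk k hk
    have k1 : kᵀ * k⁻¹ᵀ = 1 := by rw [← transpose_mul, nonsing_inv_mul k hu, transpose_one]
    have k2 := nonsing_inv_mul k hu
    conv_rhs => rw [← hinv k hk S h]
    have e : k * T * kᵀ * (k⁻¹ᵀ * S⁻¹ * k⁻¹) * (k * T * kᵀ) =
        k * T * (kᵀ * k⁻¹ᵀ) * S⁻¹ * (k⁻¹ * k) * T * kᵀ := by noncomm_ring
    rw [e, k1, k2, Matrix.mul_one, Matrix.mul_one]
    noncomm_ring
  refine ⟨?_, fun S hS => hS.1, ?_, ?_, ?_⟩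
  · -- normalise the determinant
    have hd := hS₀.det_pos
    have hc : 0 < (S₀.det ^ ((1:ℝ) / m))⁻¹ := inv_pos.2 (Real.rpow_pos_of_pos hd _)
    refine ⟨(S₀.det ^ ((1:ℝ) / m))⁻¹ • S₀, hS₀.smul hc, ?_, fun k hk => ?_⟩
    · rw [det_smul, Fintype.card_fin, inv_pow, ← Real.rpow_natCast, ← Real.rpow_mul hd.le,
        one_div_mul_cancel (by exact_mod_cast hm.ne'), Real.rpow_one,
        inv_mul_cancel₀ hd.ne']
    · rw [Matrix.mul_smul, Matrix.smul_mul, h₀ k hk]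
  · intro S hS hp
    refine ⟨hp, ?_, fun k hk => ?_⟩
    · have hc : IsClosed {S : Mt m | S.det = 1} :=
        isClosed_eq (Continuous.matrix_det continuous_id) continuous_const
      exact closure_minimal (fun T hT => hT.2.1) hc hS
    · have hc : IsClosed {S : Mt m | k * S * kᵀ = S} :=
        isClosed_eq (by fun_prop) continuous_id
      exact closure_minimal (fun T hT => hT.2.2 k hk) hc hS
  · intro S hS T hT
    refine ⟨?_, ?_, fun k hk => ?_⟩
    · have := pd_conj hS.1.inv hT.1.isUnit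
      rwa [symd hT.1] at this
    · rw [det_mul, det_mul, hT.2.1, det_nonsing_inv, hS.2.1]
      simp
    · rw [hconj k hk S T (hS.2.2 k hk), hT.2.2 k hk]
  · intro S hS T hT
    obtain ⟨G, hG, hGT⟩ := exists_mean hS.1 hT.1
    refine ⟨G, ⟨hG, ?_, fun k hk => ?_⟩, hGT⟩
    · have h1 := congrArg det hGT
      rw [det_mul, det_mul, det_nonsing_inv, hS.2.1, hT.2.1] at h1
      have h2 := hG.det_pos
      rw [Ring.inverse_one, mul_one] at h1
      nlinarith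
    · have hku : IsUnit k := (isUnit_iff_isUnit_det k).2 (hdetk k hk)
      refine mean_unique (pd_conj hG hku) hG hS.1.inv ?_
      rw [← hconj k hk S G (hS.2.2 k hk), hGT, hT.2.2 k hk]

/-- covectors whose images span are stable -/
lemma isStable_of_span {𝒦 : Set (Mt m)} {a : Fin m → ℝ} (k : Fin m → Mt m) (hk : ∀ i, k i ∈ 𝒦)
    (hdet : (Matrix.of fun i => (k i)ᵀ *ᵥ a).det ≠ 0) : IsStable (Inv 𝒦) a := by
  intro C
  set N : Mt m := Matrix.of fun i => (k i)ᵀ *ᵥ a with hN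
  have hNu : IsUnit N.det := isUnit_iff_ne_zero.2 hdet
  have n1 := nonsing_inv_mul N hNu
  have n2 : Nᵀ * N⁻¹ᵀ = 1 := by rw [← transpose_mul, n1, transpose_one]
  -- the matrix `N S Nᵀ` is bounded
  have hdiag : ∀ S ∈ Inv 𝒦, ∀ i, (N * S * Nᵀ) i i = a ⬝ᵥ S *ᵥ a := by
    intro S hS i
    have h1 : (N * S * Nᵀ) i i = ((k i)ᵀ *ᵥ a) ⬝ᵥ S *ᵥ ((k i)ᵀ *ᵥ a) := by
      rw [← diag_eq (N * S * Nᵀ) i, ← mulVec_mulVec, ← mulVec_mulVec,
        dotProduct_mulVec (Pi.single i 1 : Fin m → ℝ) N, ← mulVec_transpose]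
      have h2 : Nᵀ *ᵥ Pi.single i 1 = (k i)ᵀ *ᵥ a := by
        rw [mulVec_single_one]
        rfl
      rw [h2]
    have h3 : ((k i)ᵀ *ᵥ a) ⬝ᵥ S *ᵥ ((k i)ᵀ *ᵥ a) = a ⬝ᵥ (k i * S * (k i)ᵀ) *ᵥ a := by
      rw [← mulVec_mulVec, ← mulVec_mulVec, dotProduct_mulVec a (k i), ← mulVec_transpose]
    rw [h1, h3, hS.2.2 (k i) (hk i)]
  have hbd : ∀ S ∈ Inv 𝒦, a ⬝ᵥ S *ᵥ a ≤ C → ∀ i j, |(N * S * Nᵀ) i j| ≤ m * (m * |C|) := by
    intro S hS hC i j
    have h1 := entry_le (Q := (1 : Mt m)) PosDef.one (psd_conj hS.1.posSemidef N) i j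
    have h0 : 0 ≤ a ⬝ᵥ S *ᵥ a := by
      have := hS.1.posSemidef.dotProduct_mulVec_nonneg a
      rwa [star_trivial] at this
    rw [inv_one, Matrix.one_mul, trace_one, Fintype.card_fin] at h1
    refine h1.trans (mul_le_mul_of_nonneg_left ?_ (Nat.cast_nonneg m))
    have h2 : (N * S * Nᵀ).trace = m * (a ⬝ᵥ S *ᵥ a) := by
      unfold trace
      simp only [diag_apply]
      rw [Finset.sum_congr rfl fun i _ => hdiag S hS i]
      simp
    rw [h2]
    exact mul_le_mul_of_nonneg_left (hC.trans (le_abs_self C)) (Nat.cast_nonneg m)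
  -- compactness
  set K : Set (Mt m) := (fun Y : Mt m => N⁻¹ * Y * N⁻¹ᵀ) '' {Y : Mt m | ∀ i j, |Y i j| ≤
    m * (m * |C|)} with hK
  have hKc : IsCompact K := (isCompact_box _).image (by fun_prop)
  have hmem : ∀ S ∈ Inv 𝒦, a ⬝ᵥ S *ᵥ a ≤ C → S ∈ K := by
    intro S hS hC
    refine ⟨N * S * Nᵀ, hbd S hS hC, ?_⟩
    have e : N⁻¹ * (N * S * Nᵀ) * N⁻¹ᵀ = (N⁻¹ * N) * S * (Nᵀ * N⁻¹ᵀ) := by noncomm_ring
    show N⁻¹ * (N * S * Nᵀ) * N⁻¹ᵀ = S
    rw [e, n1, n2, Matrix.one_mul, Matrix.mul_one]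
  obtain ⟨b, hb⟩ : ∃ b : ℝ, ∀ S ∈ K, ∑ i, ∑ j, (|S i j| + |S.adjugate i j|) ≤ b := by
    have hc : Continuous (fun S : Mt m => ∑ i, ∑ j, (|S i j| + |S.adjugate i j|)) := by
      refine continuous_finsetSum _ fun i _ => continuous_finsetSum _ fun j _ => ?_
      have h1 : Continuous (fun S : Mt m => S.adjugate) := Continuous.matrix_adjugate continuous_id
      have h2 : Continuous (fun S : Mt m => S.adjugate i j) := h1.matrix_elem i j
      have h3 : Continuous (fun S : Mt m => S i j) := continuous_id.matrix_elem i j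
      exact h3.abs.add h2.abs
    obtain ⟨b, hb⟩ := (hKc.image hc).bddAbove
    exact ⟨b, fun S hS => hb ⟨S, hS, rfl⟩⟩
  refine ⟨b, fun S hS hC i j => ?_⟩
  rw [← quad_eq] at hC
  have h1 := hb S (hmem S hS hC)
  have hinv : S⁻¹ = S.adjugate := by
    rw [inv_def, hS.2.1, Ring.inverse_one, one_smul]
  rw [hinv]
  have h2 : |S i j| + |S.adjugate i j| ≤ ∑ i, ∑ j, (|S i j| + |S.adjugate i j|) := by
    refine le_trans ?_ (Finset.single_le_sum (f := fun i => ∑ j, (|S i j| + |S.adjugate i j|))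
      (fun i _ => Finset.sum_nonneg fun j _ => by positivity) (Finset.mem_univ i))
    exact Finset.single_le_sum (f := fun j => (|S i j| + |S.adjugate i j|))
      (fun j _ => by positivity) (Finset.mem_univ j)
  have h3 := abs_nonneg (S i j)
  have h4 := abs_nonneg (S.adjugate i j)
  constructor <;> linarith

end Pool.Agent.Y520.SStmt
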