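import Mathlib
import Pool.Agent.Y520.Comm

/-! Closed Reeb orbits for contact forms with a local torus symmetry whose monodromy commutes with
a group of isometries having a cyclic covector. -/

open scoped Topology ContDiff Manifold
open Set Matrix

noncomputable section

namespace Pool.Agent.Y520.SStmt

open Pool.Agent.H826R2.WStmt Pool.Agent.W669.ConeStmt Pool.Agent.Y520.Mat

set_option linter.unusedSectionVars false

universe u

variable {m : ℕ}

/-- spanning families contain bases -/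
lemma exists_basis_of_span {𝒦 : Set (Mt m)} {a : Fin m → ℝ}
    (h : Submodule.span ℝ {v | ∃ k ∈ 𝒦, v = kᵀ *ᵥ a} = ⊤) :
    ∃ k : Fin m → Mt m, (∀ i, k i ∈ 𝒦) ∧ (Matrix.of fun i => (k i)ᵀ *ᵥ a).det ≠ 0 := by
  obtain ⟨b, hbs, hspan, hli⟩ := exists_linearIndependent ℝ {v : Fin m → ℝ | ∃ k ∈ 𝒦, v = kᵀ *ᵥ a}
  rw [h] at hspan
  have hbasis := Module.Basis.mk hli (by rw [Subtype.range_coe]; exact hspan.ge)
  have hfb : Finite b := Module.Finite.finite_basis hbasis
  have : Fintype b := Fintype.ofFinite b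
  have hcard : Fintype.card b = m := by
    have h1 := Module.finrank_eq_card_basis hbasis
    rw [Module.finrank_fin_fun] at h1
    exact h1.symm
  set e : Fin m ≃ b := (Fintype.equivFinOfCardEq hcard).symm with he
  choose! k hk hkv using fun (v : Fin m → ℝ) (hv : v ∈ {v : Fin m → ℝ | ∃ k ∈ 𝒦, v = kᵀ *ᵥ a}) => hv
  refine ⟨fun i => k (e i), fun i => hk _ (hbs (e i).2), ?_⟩
  have h1 : (fun i => (k (e i))ᵀ *ᵥ a) = fun i => ((e i : b) : Fin m → ℝ) := by
    ext1 i
    exact (hkv _ (hbs (e i).2)).symm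
  have h2 : LinearIndependent ℝ (fun i : Fin m => ((e i : b) : Fin m → ℝ)) :=
    hli.comp e e.injective
  rw [← h1] at h2
  have h3 := (Matrix.linearIndependent_rows_iff_isUnit
    (A := (Matrix.of fun i => (k (e i))ᵀ *ᵥ a : Mt m))).1 h2
  rw [isUnit_iff_isUnit_det] at h3
  exact h3.ne_zero

/-- the determinant as a polynomial -/
def detPoly (k : Fin m → Mt m) : MvPolynomial (Fin m) ℝ :=
  (Matrix.of fun i j => ∑ l, MvPolynomial.C ((k i) l j) * MvPolynomial.X l).det

lemma eval_detPoly (k : Fin m → Mt m) (a : Fin m → ℝ) :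
    MvPolynomial.eval a (detPoly k) = (Matrix.of fun i => (k i)ᵀ *ᵥ a).det := by
  unfold detPoly
  rw [← RingHom.coe_coe, RingHom.map_det]
  congr 1
  ext i j
  simp [mulVec, dotProduct]

section

variable {E : Type u} [NormedAddCommGroup E] [NormedSpace ℝ E] [FiniteDimensional ℝ E]
  {M : Type*} [TopologicalSpace M] [ChartedSpace E M] [IsManifold 𝓘(ℝ, E) ∞ M]
  {P : Type*} [TopologicalSpace P] [ChartedSpace E P] [IsManifold 𝓘(ℝ, E) ∞ P]

/-- The monodromy of the torus action virtually commutes with the matrices in `𝒦`: for all elements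
`γ` of a subgroup of finite index of `Γ` one has `γ (θ x) = (B θ) (γ x)` with an integer matrix `B`
depending on `γ` such that `B k = k B` for all `k` in `𝒦`. -/
def MonodromyCommutes (Γ : Type*) [Group Γ] [MulAction Γ P] {m : ℕ}
    (act : (Fin m → ℝ) → P → P) (𝒦 : Set (Matrix (Fin m) (Fin m) ℝ)) : Prop :=
  ∃ Γ₀ : Subgroup Γ, Γ₀.FiniteIndex ∧ ∀ γ ∈ Γ₀, ∃ B : Matrix (Fin m) (Fin m) ℤ,
    (∀ (θ : Fin m → ℝ) (x : P), γ • act θ x = act (fun i => ∑ j, (B i j : ℝ) * θ j) (γ • x)) ∧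
    ∀ k ∈ 𝒦, B.map (Int.cast : ℤ → ℝ) * k = k * B.map (Int.cast : ℤ → ℝ)

/-- **Commuting isometries.** -/
theorem exists_periodic_commuting [T2Space M] [CompactSpace M]
    (α : M → Cov E) (hα : IsContact α) (R : M → E) (hR : IsReeb α R)
    [T2Space P] [SigmaCompactSpace P] [Nonempty P]
    {Γ : Type*} [Group Γ] [MulAction Γ P] (q : P → M) (hq : IsQuotientMap E q Γ)
    {m : ℕ} (hm : 0 < m) (A : TorusAction (pull (E := E) q α) m) (hA : Normalises Γ A.act)
    (𝒦 : Set (Matrix (Fin m) (Fin m) ℝ)) (hAK : MonodromyCommutes Γ A.act 𝒦)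
    (S : Matrix (Fin m) (Fin m) ℝ) (hS : S.PosDef) (hSK : ∀ k ∈ 𝒦, k * S * kᵀ = S)
    (a : Fin m → ℝ) (ha : Submodule.span ℝ {v | ∃ k ∈ 𝒦, v = kᵀ *ᵥ a} = ⊤) :
    ∃ (c : ℝ → M) (T : ℝ), IsPeriodicOrbit R c T := by
  obtain ⟨Γ₀, hΓ₀, hAK⟩ := hAK
  obtain ⟨k, hk, hdet⟩ := exists_basis_of_span ha
  have hX := Inv.totallyGeodesic hS hSK hm
  set F := detPoly k with hF
  have hF0 : F ≠ 0 := by
    intro h0
    apply hdet
    rw [← eval_detPoly, ← hF, h0, map_zero]
  obtain ⟨d, hd⟩ : ∃ d, MvPolynomial.homogeneousComponent d F ≠ 0 := by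
    by_contra hno
    push Not at hno
    apply hF0
    rw [← MvPolynomial.sum_homogeneousComponent F]
    exact Finset.sum_eq_zero fun i _ => hno i
  have hq' : H826R2.Wein.RegCover (E := E) q Γ := hq.toWein
  obtain ⟨x, hx⟩ := exists_pf_ne_zero A.toWein (hq'.isContact_pull hα.toWein)
    (hq'.isReeb_lift hα.toWein hR.toWein) d _
    (MvPolynomial.homogeneousComponent_isHomogeneous d F) hd
  obtain ⟨c, hc, hcF⟩ := exists_smul_ne_zero hx
  have hst : IsStable (Inv 𝒦) (mom A.toWein x) := by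
    refine IsStable.of_smul (c := c) (isStable_of_span k hk ?_)
    rw [← eval_detPoly]
    exact hcF
  obtain ⟨c, T, h1, h2, h3⟩ := exists_closed_orbit_stable' hα.toWein hR.toWein
    hq.toWein hm A.toWein hX.toTG hX.nonempty hA Γ₀ hΓ₀
    (fun B => ∀ k ∈ 𝒦, Br B * k = k * Br B) hAK (by
      intro B hB hBk T hT
      have hdetB : (Br B).det = ((B.det : ℤ) : ℝ) := (Int.cast_det B).symm
      have hBu : IsUnit (Br B) := by
        rw [isUnit_iff_isUnit_det, hdetB]
        exact hB.map (Int.castRingHom ℝ)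
      refine ⟨pd_conj hT.1 hBu, ?_, fun k hk => ?_⟩
      · rw [det_mul, det_mul, hT.2.1, det_transpose, hdetB]
        rcases Int.isUnit_iff.1 hB with h | h <;> rw [h] <;> norm_num
      · have h1 := hBk k hk
        have e : k * (Br B * T * (Br B)ᵀ) * kᵀ = Br B * (k * T * kᵀ) * (Br B)ᵀ := by
          have h2 : (Br B)ᵀ * kᵀ = kᵀ * (Br B)ᵀ := by
            rw [← transpose_mul, ← transpose_mul, h1]
          have : k * (Br B * T * (Br B)ᵀ) * kᵀ = (k * Br B) * T * ((Br B)ᵀ * kᵀ) := by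
            noncomm_ring
          rw [this, h2, ← h1]
          noncomm_ring
        rw [e, hT.2.2 k hk]) ⟨x, hst.toStab⟩
  exact ⟨c, T, h1, h2, h3⟩

end

end Pool.Agent.Y520.SStmt
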